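import Pool.Agent.N783.OA.Final
import Pool.Agent.Y563.G.Epq

/-!
# The `ℓ`-part of the Birch and Swinnerton-Dyer conjecture for the abelian varieties `E ⊗ M`, `ℓ` odd

`E` is an elliptic curve over `ℚ` with a minimal equation `W`, `ℓ` is an odd prime, of any reduction
type, and `M = ℤ^g` is a lattice with an action `ρ` of `Gal(ℚ(ζ_m)/ℚ) = (ℤ/m)ˣ` through an `ℓ`-group;
`m` is a product of different primes `l ≡ 1 (mod ℓ)` of good reduction with `ℓ ∤ #E(𝔽_l)`, and the primes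
that divide `6 ℓ Δ` act trivially on `M`.  The abelian variety `A = E ⊗ M` over `ℚ` has dimension `g`
(every abelian variety over `ℚ` that becomes isomorphic to `E^g` over a subfield of `ℚ(ζ_m)` is of this
form if `E` has no complex multiplication); its dual is `E ⊗ M^∨`.  If the `ℓ`-part of the Birch and
Swinnerton-Dyer conjecture holds for `E` over `ℚ`, with all terms prime to `ℓ`, then it holds for `A`:
`A(ℚ)` and `A'(ℚ)` are finite of order prime to `ℓ`, `Ш(A/ℚ)[ℓ^∞] = 0`, the `L`-function of `A` is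
entire, and `L(A, 1)` is the product of the volumes `V_∞` and `V_bad` and of a rational number that is a
unit at `ℓ`.

The volumes.  As `m` is squarefree, `A` has at the primes `l ∣ m` good reduction over a tamely ramified
extension; the Néron differential of `A` is, up to a unit at `l`, `l^(-(g - rank M^(I_l)) / 2)` times the
differential given by a basis of `M` and the Néron differential of `E`, and `∫_{A(ℚ_l)} |ω|_l` is a unit
at `ℓ`, as `E` has no point of order `ℓ` modulo `l` and an `ℓ`-group acts on `M`; so these factors do not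
appear.  The complex conjugation acts trivially on `M`, since `ℓ` is odd, and the group
`A(ℝ) = E(ℝ) ⊗ M` has the volume `realPeriod^g` for the latter differential.  At the primes `p ∣ Δ` the
volume is the Tamagawa number (prime to `ℓ`) times
`#(E_p ⊗ M)⁰(𝔽_p) / p^g = det (1 - a_p / p ρ(p))`.

The proof.  Algebraic side: a descent along the `ℓ`-extension `K/ℚ` over which `M` is trivial gives
`Ш(E/K)[ℓ^∞] = 0` and `ℓ ∤ #E(K)`, and then `A(ℚ) ⊂ E(K)^g` and the classes of `Ш(A/ℚ)[ℓ^∞]` are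
killed by the degree of `K` and by a number prime to `ℓ`.  Analytic side: `L(A, s)` is the product of the
twists `L(E, χ, s)` over the characters `χ` of `M`, which are even; `τ(χ) L(E, χ⁻¹, 1)` is the real period
times an algebraic number, and modulo the primes above `ℓ` these numbers are congruent to a sum of modular
symbols that does not depend on `χ`; the product over the Galois stable family of the characters of `M`
is rational.
-/

set_option autoImplicit false

open NumberField NumberField.InfinitePlace IsDedekindDomain WeierstrassCurve MeasureTheory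
open UpperHalfPlane MatrixGroups CongruenceSubgroup

namespace Pool.Agent.Results.MP_dfae13_nt.OddPartTensor

open scoped Classical

open Pool.Agent.TH841.NF.D (Sha)
open Pool.Agent.TH841.SH.D (Pt act Gal)

/-- The curve given by the equation of `W` over the ring `R`. -/
abbrev base (W : WeierstrassCurve ℤ) (R : Type) [CommRing R] : WeierstrassCurve R :=
  W.map (Int.castRingHom R)

/-- The number of the affine points `(x, y)` over the ring `R`. -/
noncomputable def pts (W : WeierstrassCurve ℤ) (R : Type) [CommRing R] : ℕ :=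
  Nat.card {P : R × R // (base W R).toAffine.Equation P.1 P.2}

section

variable {K : Type} [Field K] [NumberField K]

/-- `a_v = N v + 1 - #W(k_v)`, the points over the residue field `k_v` counted with the point at
infinity. -/
noncomputable def a (W : WeierstrassCurve ℤ) (v : HeightOneSpectrum (𝓞 K)) : ℤ :=
  (Ideal.absNorm v.asIdeal : ℤ) - pts W (𝓞 K ⧸ v.asIdeal)

/-- The Euler factor of `L(W/K, s)` at `v` : `(1 - a_v N v^(-s) + N v^(1 - 2 s))⁻¹` if the
discriminant is a unit at `v`, and `(1 - a_v N v^(-s))⁻¹` otherwise. -/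
noncomputable def factor (W : WeierstrassCurve ℤ) (s : ℂ) (v : HeightOneSpectrum (𝓞 K)) : ℂ :=
  (1 - (a W v : ℂ) * (Ideal.absNorm v.asIdeal : ℂ) ^ (-s) +
    if ((W.Δ : ℤ) : 𝓞 K) ∈ v.asIdeal then 0 else (Ideal.absNorm v.asIdeal : ℂ) ^ (1 - 2 * s))⁻¹

/-- The equation is minimal at the finite place `v` of `K`: no change of variables over `K` that
keeps the coefficients integral at `v` decreases the valuation of the discriminant. -/
def MinimalAt (W : WeierstrassCurve ℤ) (v : HeightOneSpectrum (𝓞 K)) : Prop :=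
  ∀ C : VariableChange K, v.valuation K (C • base W K).a₁ ≤ 1 →
    v.valuation K (C • base W K).a₂ ≤ 1 → v.valuation K (C • base W K).a₃ ≤ 1 →
    v.valuation K (C • base W K).a₄ ≤ 1 → v.valuation K (C • base W K).a₆ ≤ 1 →
    v.valuation K (C • base W K).Δ ≤ v.valuation K (base W K).Δ

/-- `E⁰(K_v)`, the group of the points of `W` over the completion `K_v` with nonsingular reduction:
the points `(x, y)` where `x` is not integral, or one of the partial derivatives of
`y² + a₁ x y + a₃ y - x³ - a₂ x² - a₄ x - a₆` is a unit at `(x, y)`, and the point at infinity. -/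
noncomputable def nonsing (W : WeierstrassCurve ℤ) (v : HeightOneSpectrum (𝓞 K)) :
    AddSubgroup (base W (v.adicCompletion K)).toAffine.Point :=
  AddSubgroup.closure {P | ∀ x y h, P = Affine.Point.some x y h →
    1 < Valued.v x ∨ Valued.v (W.a₁ * y - (3 * x ^ 2 + 2 * W.a₂ * x + W.a₄)) = 1 ∨
      Valued.v (2 * y + W.a₁ * x + W.a₃) = 1}

/-- The Tamagawa number `c_v = [E(K_v) : E⁰(K_v)]` of a minimal equation. -/
noncomputable def c (W : WeierstrassCurve ℤ) (v : HeightOneSpectrum (𝓞 K)) : ℕ :=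
  (nonsing W v).index

end

section

variable (K : Type) [Field K] [NumberField K]

/-- The product of the Tamagawa numbers. -/
noncomputable def Tam (W : WeierstrassCurve ℤ) : ℕ := ∏ᶠ v : HeightOneSpectrum (𝓞 K), c W v

/-- The `ℓ`-primary part of the Tate-Shafarevich group over `K`. -/
def ShaP (ℓ : ℕ) (W : WeierstrassCurve ℤ) : Set (Sha (base W K)) := {x | ∃ n : ℕ, ℓ ^ n • x = 0}

/-- The torsion subgroup of the group of the points over `K`. -/
def tors (W : WeierstrassCurve ℤ) : Set (base W K).toAffine.Point := {P | ∃ n : ℕ, 0 < n ∧ n • P = 0}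

/-- The rank of the group of the points over `K`. -/
noncomputable def rank (W : WeierstrassCurve ℤ) : ℕ := Module.finrank ℤ (base W K).toAffine.Point

end

/-- `4 x³ + b₂ x² + 2 b₄ x + b₆ = (2 y + a₁ x + a₃)²`, where `b₂ = a₁² + 4 a₂`,
`b₄ = 2 a₄ + a₁ a₃`, `b₆ = a₃² + 4 a₆`. -/
def cubic (W : WeierstrassCurve ℤ) {R : Type} [CommRing R] (x : R) : R :=
  4 * x ^ 3 + W.b₂ * x ^ 2 + 2 * W.b₄ * x + W.b₆

/-- `∫_{W(ℝ)} |ω|` with `ω = dx / (2 y + a₁ x + a₃)`, as an integral over `x`: two real points lie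
over each `x` with `cubic x > 0`. -/
noncomputable def realPeriod (W : WeierstrassCurve ℤ) : ℝ :=
  2 * ∫ x in {x : ℝ | 0 < cubic W x}, 1 / √(cubic W x)

/-- `2 ∫_{W(ℂ)} |ω ∧ ω̄|`, where `|ω ∧ ω̄| = du dv` in a local parameter `z = u + i v` with
`dz = ω`, as an integral over `x`: two points lie over a general `x`, and `|ω ∧ ω̄|` is the area
element of the plane of `x` divided by `|cubic x|`. -/
noncomputable def complexPeriod (W : WeierstrassCurve ℤ) : ℝ := 2 * (2 * ∫ x : ℂ, 1 / ‖cubic W x‖)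

/-- The global period of an equation that is minimal at all finite places. -/
noncomputable def Omega (K : Type) [Field K] [NumberField K] (W : WeierstrassCurve ℤ) : ℝ :=
  realPeriod W ^ nrRealPlaces K * complexPeriod W ^ nrComplexPlaces K

/-- **The `ℓ`-part of the Birch and Swinnerton-Dyer conjecture** for `W` over `K`, the equation being
minimal and the rank being zero: almost all Tamagawa numbers are one; the `L`-function is entire; its
order at `s = 1` is the rank; the `ℓ`-primary part of the Tate-Shafarevich group is finite; and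
`L(1) √|Δ_K| / Ω` is a rational number with the same `ℓ`-adic valuation as
`#Ш[ℓ^∞] Tam / #tors²`. -/
structure BSDPart (ℓ : ℕ) (K : Type) [Field K] [NumberField K] (W : WeierstrassCurve ℤ) : Prop where
  minimal : ∀ v : HeightOneSpectrum (𝓞 K), MinimalAt W v
  tam : {v : HeightOneSpectrum (𝓞 K) | c W v ≠ 1}.Finite
  rank : rank K W = 0
  points : Finite (base W K).toAffine.Point
  sha : (ShaP K ℓ W).Finite
  formula : ∃ L : ℂ → ℂ, Differentiable ℂ L ∧
    (∀ s : ℂ, 3 / 2 < s.re → HasProd (factor (K := K) W s) (L s)) ∧ analyticOrderAt L 1 = 0 ∧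
    ∃ r : ℚ, L 1 * √|(discr K : ℝ)| = r * Omega K W ∧ r ≠ 0 ∧
      padicValRat ℓ r = padicValRat ℓ
        ((Nat.card (ShaP K ℓ W) * Tam K W : ℚ) / (Nat.card (tors K W) : ℚ) ^ 2)

/-- The algebraic terms of the formula are prime to `ℓ`. -/
structure AllUnits (ℓ : ℕ) (K : Type) [Field K] [NumberField K] (W : WeierstrassCurve ℤ) : Prop where
  sha : ShaP K ℓ W = {0}
  tam : ¬ ℓ ∣ Tam K W
  tors : ¬ ℓ ∣ Nat.card (tors K W)

section modular

variable {N : ℕ}

/-- The `n`-th coefficient of the cusp form `f = ∑ a_n q^n`. -/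
noncomputable def co (f : CuspForm (Gamma0 N : Subgroup (GL (Fin 2) ℝ)) 2) (n : ℕ) : ℂ :=
  (qExpansion 1 f).coeff n

/-- `2 π i ∫_(i∞)^z f(w) dw = ∑ a_n / n e^(2 π i n z)`. -/
noncomputable def prim (f : CuspForm (Gamma0 N : Subgroup (GL (Fin 2) ℝ)) 2) (z : ℂ) : ℂ :=
  ∑' n : ℕ, co f n / n * Complex.exp (2 * Real.pi * Complex.I * n * z)

/-- The cusp form `f` of weight two for `Γ₀(N)` is the newform of `W`: it is a normalised eigenform
of the Hecke operators and of the Fricke involution, with real coefficients that satisfy the bounds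
of Hasse, `N` has the same prime divisors as the discriminant, and `a_p = p + 1 - #W(𝔽_p)`. -/
structure IsNewform (W : WeierstrassCurve ℤ) (N : ℕ)
    (f : CuspForm (Gamma0 N : Subgroup (GL (Fin 2) ℝ)) 2) : Prop where
  one : co f 1 = 1
  real : ∀ n, (co f n).im = 0
  mul : ∀ m n : ℕ, Nat.Coprime m n → co f (m * n) = co f m * co f n
  pow : ∀ p j : ℕ, p.Prime → co f (p ^ (j + 2)) = co f p * co f (p ^ (j + 1)) -
      (if p ∣ N then 0 else (p : ℂ) * co f (p ^ j))
  good : ∀ p : ℕ, p.Prime → ¬ p ∣ N → ‖co f p‖ ≤ 2 * Real.sqrt p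
  bad : ∀ p : ℕ, p.Prime → p ∣ N → ‖co f p‖ ≤ 1
  fricke : ∃ w : ℝ, (w = 1 ∨ w = -1) ∧ ∀ τ τ' : ℍ, (τ' : ℂ) * ((N : ℂ) * (τ : ℂ)) = -1 →
    f τ' = -(w : ℂ) * (N : ℂ) * (τ : ℂ) ^ 2 * f τ
  level : ∀ p : ℕ, p.Prime → (p ∣ N ↔ (p : ℤ) ∣ W.Δ)
  coef : ∀ p : ℕ, p.Prime → co f p = (p : ℂ) - (pts W (ZMod p) : ℂ)

end modular

section tensor

/-! ### The abelian variety `A = E ⊗ M`, `M = ℤ^g`

Its points over an algebraic closure of `ℚ` are the `g`-tuples of points of `E`; the Galois group of `ℚ`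
acts on them by its action on `E` and the matrices `R(σ)`. -/

/-- The action of an integral matrix on `ℤ^g ⊗ G = G^g`. -/
def mat {G : Type} [AddCommGroup G] {g : ℕ} (A : Matrix (Fin g) (Fin g) ℤ) (P : Fin g → G) :
    Fin g → G := fun i => ∑ j, A i j • P j

variable {g : ℕ} (W : WeierstrassCurve ℤ) (R : Gal ℚ →* GL (Fin g) ℤ)

/-- The points of `A` over an extension of `ℚ` over which the action on `M` is trivial. -/
abbrev PtA (g : ℕ) (L : Type) [Field L] [Algebra ℚ L] : Type := Fin g → Pt (base W ℚ) L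

/-- The action of the Galois group on the points of `A`: `σ` applied to the coordinates, and then the
matrix `R(σ)`. -/
noncomputable def actA (σ : Gal ℚ) (P : PtA W g (AlgebraicClosure ℚ)) :
    PtA W g (AlgebraicClosure ℚ) :=
  mat (R σ : Matrix (Fin g) (Fin g) ℤ) (fun i => act (base W ℚ) σ.toAlgHom (P i))

/-- `A(ℚ)`. -/
def ptsA : Set (PtA W g (AlgebraicClosure ℚ)) := {P | ∀ σ : Gal ℚ, actA W R σ P = P}

/-- `f` is a continuous cocycle with values in `A`: `f (σ τ) = f σ + σ (f τ)`. -/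
def IsCocycle (f : Gal ℚ → PtA W g (AlgebraicClosure ℚ)) : Prop :=
  IsLocallyConstant f ∧ ∀ σ τ : Gal ℚ, f (σ * τ) = f σ + actA W R σ (f τ)

/-- `f` is a coboundary: `f σ = σ P - P`. -/
def IsCoboundary (f : Gal ℚ → PtA W g (AlgebraicClosure ℚ)) : Prop :=
  ∃ P : PtA W g (AlgebraicClosure ℚ), ∀ σ : Gal ℚ, f σ = actA W R σ P - P

/-- For every embedding of the algebraic closures the restriction of `f` to the absolute Galois
group of `K` is a coboundary: `f σ = τ P - P` for `τ` in this group with restriction `σ`. -/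
def LocTriv (K : Type) [Field K] [Algebra ℚ K] (f : Gal ℚ → PtA W g (AlgebraicClosure ℚ)) : Prop :=
  ∀ ι : AlgebraicClosure ℚ →ₐ[ℚ] AlgebraicClosure K, ∃ P : PtA W g (AlgebraicClosure K),
    ∀ (τ : Gal K) (σ : Gal ℚ), (∀ x, τ (ι x) = ι (σ x)) →
      (fun i => act (base W ℚ) ι (f σ i)) = mat (R σ : Matrix (Fin g) (Fin g) ℤ)
        (fun i => act (base W ℚ) (τ.toAlgHom.restrictScalars ℚ) (P i)) - P

/-- `f` is a continuous cocycle that is locally trivial at all the places of `ℚ`; its class is an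
element of `Ш(A/ℚ)`, and this is zero if and only if `f` is a coboundary. -/
def IsShaCocycle (f : Gal ℚ → PtA W g (AlgebraicClosure ℚ)) : Prop :=
  IsCocycle W R f ∧ (∀ (p : ℕ) [Fact p.Prime], LocTriv W R ℚ_[p] f) ∧ LocTriv W R ℝ f

end tensor

section lattice

variable {m g : ℕ} (ρ : (ZMod m)ˣ →* GL (Fin g) ℤ)

/-- The matrix `ρ(p)` of the Frobenius automorphism at a prime `p` that does not divide `m`. -/
noncomputable def frob (p : ℕ) : Matrix (Fin g) (Fin g) ℤ :=
  if h : p.Coprime m then (ρ (ZMod.unitOfCoprime p h) : Matrix (Fin g) (Fin g) ℤ) else 0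

/-- The Euler polynomial of `A = E ⊗ M` at a prime `p` of good reduction that does not divide `m`,
`det (1 - T Frob_p | H¹(A)) = det (1 - a_p T ρ(p) + p T² ρ(p)²)`, where `a_p = p - pts` as `pts` does not
count the point at infinity. -/
noncomputable def P (W : WeierstrassCurve ℤ) (p : ℕ) (T : ℂ) : ℂ :=
  (1 - ((((p : ℤ) - pts W (ZMod p) : ℤ) : ℂ) * T) • (frob ρ p).map (Int.cast : ℤ → ℂ) +
    ((p : ℂ) * T ^ 2) • ((frob ρ p).map (Int.cast : ℤ → ℂ)) ^ 2).det

/-- `det (1 - a_p / p ρ(p)) = #𝒜⁰(𝔽_p) / p^g` at a prime `p` of bad reduction of `E` that does not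
divide `m`. -/
noncomputable def bad (W : WeierstrassCurve ℤ) (p : ℕ) : ℝ :=
  (1 - ((((p : ℤ) - pts W (ZMod p) : ℤ) : ℝ) / p) • (frob ρ p).map (Int.cast : ℤ → ℝ)).det

/-- The vectors of `M` fixed by the subgroup `H`. -/
noncomputable def fixed (H : Subgroup (ZMod m)ˣ) : Submodule ℤ (Fin g → ℤ) :=
  ⨅ u : H, LinearMap.ker (Matrix.toLin' ((ρ (u : (ZMod m)ˣ) : Matrix (Fin g) (Fin g) ℤ) - 1))

/-- The inertia group at the prime `l ∣ m`, for `m` squarefree: the units congruent to `1` modulo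
`m / l`. -/
def inertia (m l : ℕ) : Subgroup (ZMod m)ˣ where
  carrier := {u | ∃ k : ZMod m, (u : ZMod m) = 1 + k * ((m / l : ℕ) : ZMod m)}
  one_mem' := ⟨0, by simp⟩
  mul_mem' := by
    rintro u v ⟨k, hk⟩ ⟨j, hj⟩
    refine ⟨k + j + k * j * ((m / l : ℕ) : ZMod m), ?_⟩
    rw [Units.val_mul, hk, hj]
    ring
  inv_mem' := by
    rintro u ⟨k, hk⟩
    refine ⟨-k * ((u⁻¹ : (ZMod m)ˣ) : ZMod m), ?_⟩
    have h1 : ((u⁻¹ : (ZMod m)ˣ) : ZMod m) * (u : ZMod m) = 1 := Units.inv_mul u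
    have h2 : ((u⁻¹ : (ZMod m)ˣ) : ZMod m) * (1 + k * ((m / l : ℕ) : ZMod m)) = 1 := by
      rw [← hk]; exact h1
    linear_combination h2

/-- The Artin conductor of `M`, `∏_{l ∣ m} l^(g - rank M^(I_l))`, for `m` squarefree. -/
noncomputable def cond : ℕ :=
  ∏ l ∈ m.primeFactors, l ^ (g - Module.finrank ℤ (fixed ρ (inertia m l)))

/-- `V_∞`, the volume of `A(ℝ)` for the Néron differential of `A`: the complex conjugation acts
trivially on `M` if `ρ` has odd order, and `A(ℝ) = E(ℝ) ⊗ M`. -/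
noncomputable def Vinf (W : WeierstrassCurve ℤ) : ℝ := realPeriod W ^ g / √(cond ρ : ℝ)

end lattice

/-- The contragredient: `A ↦ (A⁻¹)ᵀ`.  It gives the action on the dual lattice `M^∨`. -/
noncomputable def contra (g : ℕ) : GL (Fin g) ℤ →* GL (Fin g) ℤ where
  toFun A := ⟨((A⁻¹ : GL (Fin g) ℤ) : Matrix (Fin g) (Fin g) ℤ).transpose,
    ((A : GL (Fin g) ℤ) : Matrix (Fin g) (Fin g) ℤ).transpose, by
      rw [← Matrix.transpose_mul, ← Units.val_mul, mul_inv_cancel, Units.val_one,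
        Matrix.transpose_one], by
      rw [← Matrix.transpose_mul, ← Units.val_mul, inv_mul_cancel, Units.val_one,
        Matrix.transpose_one]⟩
  map_one' := by
    apply Units.ext
    show ((1⁻¹ : GL (Fin g) ℤ) : Matrix (Fin g) (Fin g) ℤ).transpose = 1
    rw [inv_one, Units.val_one, Matrix.transpose_one]
  map_mul' A B := by
    apply Units.ext
    show (((A * B)⁻¹ : GL (Fin g) ℤ) : Matrix (Fin g) (Fin g) ℤ).transpose =
      ((A⁻¹ : GL (Fin g) ℤ) : Matrix (Fin g) (Fin g) ℤ).transpose *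
        ((B⁻¹ : GL (Fin g) ℤ) : Matrix (Fin g) (Fin g) ℤ).transpose
    rw [mul_inv_rev, Units.val_mul, Matrix.transpose_mul]

/-- The curves `E` of the theorem: the equation is minimal of discriminant `Δ ≠ 0`, the curve has a
newform and `c` times the real parts of the periods of `2 π i f(z) dz` on `Γ₀(N)` are multiples of the
real period, for an integer `c` prime to `ℓ` (the Manin constant is prime to `ℓ`); the `ℓ`-part of the
Birch and Swinnerton-Dyer conjecture holds over `ℚ`, with all terms prime to `ℓ`. -/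
structure Seed (ℓ : ℕ) (W : WeierstrassCurve ℤ) : Prop where
  disc : W.Δ ≠ 0
  modular : ∃ (N : ℕ) (_ : NeZero N) (f : CuspForm (Gamma0 N : Subgroup (GL (Fin 2) ℝ)) 2) (c : ℤ),
    IsNewform W N f ∧ ¬ (ℓ : ℤ) ∣ c ∧ ∀ γ ∈ Gamma0 N, ∀ z : ℍ, ∃ n : ℤ,
      c * (prim f ((γ • z : ℍ) : ℂ) - prim f (z : ℂ)).re = n * realPeriod W
  bsd : BSDPart ℓ ℚ W
  units : AllUnits ℓ ℚ W

/-- **The `ℓ`-part of the Birch and Swinnerton-Dyer conjecture** for `A = E ⊗ M` over `ℚ`: the groups of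
the rational points of `A` and of its dual are finite of order prime to `ℓ`; the `ℓ`-primary part of the
Tate-Shafarevich group is zero; the `L`-function (the Euler product over the primes that do not divide
`m Δ`) is entire and its order at `s = 1` is the rank `0`; and
`L(A, 1) = r V_∞ ∏_{p ∣ Δ} #𝒜⁰(𝔽_p) / p^g`, where `r` is a rational number and a unit at `ℓ`.  Here `κ`
is the cyclotomic character, and `ρ ∘ κ` the action of the Galois group of `ℚ` on `M`. -/
structure OddPart (ℓ : ℕ) (W : WeierstrassCurve ℤ) {m g : ℕ} (ρ : (ZMod m)ˣ →* GL (Fin g) ℤ)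
    (κ : Gal ℚ →* (ZMod m)ˣ) : Prop where
  points : Finite (ptsA W (ρ.comp κ)) ∧ ¬ ℓ ∣ Nat.card (ptsA W (ρ.comp κ))
  dual : Finite (ptsA W (((contra g).comp ρ).comp κ)) ∧
    ¬ ℓ ∣ Nat.card (ptsA W (((contra g).comp ρ).comp κ))
  sha : ∀ f, IsShaCocycle W (ρ.comp κ) f → ∀ k : ℕ, IsCoboundary W (ρ.comp κ) (ℓ ^ k • f) →
    IsCoboundary W (ρ.comp κ) f
  formula : ∃ L : ℂ → ℂ, Differentiable ℂ L ∧
    (∀ s : ℂ, 3 / 2 < s.re → HasProd (fun p : Nat.Primes =>
      if ((p : ℕ) : ℤ) ∣ m * W.Δ then 1 else (P ρ W p (((p : ℕ) : ℂ) ^ (-s)))⁻¹) (L s)) ∧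
    analyticOrderAt L 1 = 0 ∧
    ∃ r : ℚ, L 1 = r * (Vinf ρ W * ∏ p ∈ W.Δ.natAbs.primeFactors, bad ρ W p) ∧
      r ≠ 0 ∧ padicValRat ℓ r = 0

section proof

open Pool.Agent.Y702
open Pool.Agent.N783.OL (Per)

variable {N : ℕ} [NeZero N]

lemma isForm {W : WeierstrassCurve ℤ} {f : CuspForm (Gamma0 N : Subgroup (GL (Fin 2) ℝ)) 2}
    (h : IsNewform W N f) : G.IsForm W N f :=
  ⟨h.one, h.real, h.mul, h.pow, h.good, h.bad, h.fricke, h.level, h.coef⟩

/-- the value of the `L`-function over `ℚ` is the value of the integral of `f` -/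
theorem bv_zero (hE : G.S_EPQ) {W : WeierstrassCurve ℤ}
    {f : CuspForm (Gamma0 N : Subgroup (GL (Fin 2) ℝ)) 2} (hf : G.IsForm W N f) (L : ℂ → ℂ)
    (hL : Differentiable ℂ L)
    (hp : ∀ s : ℂ, 3 / 2 < s.re → HasProd (factor (K := ℚ) W s) (L s)) :
    Pool.Agent.Y18.BSD.bv f 0 = L 1 := by
  obtain ⟨H, h1, h2, h3⟩ := G.twist hf 1 (Nat.coprime_one_left N) (1 : DirichletCharacter ℂ 1)
    (DirichletCharacter.isPrimitive_one_level_one)
  have e : L = H := by
    have hLa : AnalyticOnNhd ℂ L Set.univ := fun z _ => hL.analyticAt z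
    have hHa : AnalyticOnNhd ℂ H Set.univ := fun z _ => h1.analyticAt z
    refine hLa.eq_of_eventuallyEq hHa (z₀ := 2) ?_
    have hopen : IsOpen {s : ℂ | 3 / 2 < s.re} := isOpen_lt continuous_const Complex.continuous_re
    filter_upwards [hopen.mem_nhds (show (2 : ℂ) ∈ {s : ℂ | 3 / 2 < s.re} by
      simp only [Set.mem_ofPred_eq]; norm_num)] with s hs
    have h4 := hE W N f hf s (L s) (hp s hs)
    have h5 := h2 s hs
    refine h4.unique (h5.congr_fun fun p => ?_)
    have hz : ((p : ℕ) : ZMod 1) = 1 := Subsingleton.elim _ _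
    rw [hz, map_one, mul_one, one_pow, mul_one]
  rw [e]
  have hd : ((default : (ZMod 1)ˣ)) = 1 := Subsingleton.elim _ _
  have hv : (((1 : (ZMod 1)ˣ) : ZMod 1).val : ℚ) / ((1 : ℕ) : ℚ) = 0 := by
    have : (((1 : (ZMod 1)ˣ) : ZMod 1)).val = 0 := by
      have := ZMod.val_lt ((1 : (ZMod 1)ˣ) : ZMod 1)
      omega
    rw [this]; simp
  rw [Fintype.sum_unique, hd, hv, Units.val_one, map_one, one_mul] at h3
  have hg : gaussSum (1 : DirichletCharacter ℂ 1)⁻¹ (ZMod.stdAddChar (N := 1)) = 1 := by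
    unfold gaussSum
    have h6 : ∀ x : ZMod 1, (1 : DirichletCharacter ℂ 1)⁻¹ x * ZMod.stdAddChar (N := 1) x = 1 := by
      intro x
      have e1 : (1 : DirichletCharacter ℂ 1)⁻¹ x = 1 := by
        rw [Subsingleton.elim x 1, map_one]
      have e2 : ZMod.stdAddChar (N := 1) x = 1 := by
        rw [Subsingleton.elim x 0, AddChar.map_zero_eq_one]
      rw [e1, e2, one_mul]
    rw [Finset.sum_congr rfl fun x _ => h6 x]
    simp
  rw [hg, one_mul] at h3
  exact h3.symm

section alg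

variable {K : Type} [Field K] [NumberField K] {W : WeierstrassCurve ℤ} {ℓ : ℕ}

lemma tors_eq (h : Finite (base W K).toAffine.Point) : tors K W = Set.univ := by
  ext P
  simp only [Set.mem_univ, iff_true]
  exact ⟨Nat.card (base W K).toAffine.Point, Nat.card_pos,
    card_nsmul_eq_zero' (G := (base W K).toAffine.Point) (x := P)⟩

lemma ne_zero_of {a : ℕ} (h : ¬ ℓ ∣ a) : a ≠ 0 := fun h0 => h (h0 ▸ dvd_zero _)

lemma units_val (hℓ : ℓ.Prime) (h : AllUnits ℓ K W) : padicValRat ℓ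
    ((Nat.card (ShaP K ℓ W) * Tam K W : ℚ) / (Nat.card (tors K W) : ℚ) ^ 2) = 0 := by
  rw [h.sha, Nat.card_unique, Nat.cast_one, one_mul]
  have : Fact ℓ.Prime := ⟨hℓ⟩
  rw [padicValRat.div (Nat.cast_ne_zero.2 (ne_zero_of h.tam))
    (pow_ne_zero _ (Nat.cast_ne_zero.2 (ne_zero_of h.tors))), padicValRat.pow, padicValRat.of_nat,
    padicValRat.of_nat, padicValNat.eq_zero_of_not_dvd h.tam,
    padicValNat.eq_zero_of_not_dvd h.tors]
  simp

end alg

/-- the analytic data -/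
theorem per_of {W : WeierstrassCurve ℤ} {ℓ : ℕ} (hℓ : ℓ.Prime) (hB : BSDPart ℓ ℚ W)
    (hU : AllUnits ℓ ℚ W) (f : CuspForm (Gamma0 N : Subgroup (GL (Fin 2) ℝ)) 2)
    (hf : IsNewform W N f) (cc : ℤ) (hcc : ¬ (ℓ : ℤ) ∣ cc)
    (hman : ∀ γ ∈ Gamma0 N, ∀ z : ℍ, ∃ n : ℤ,
      cc * (prim f ((γ • z : ℍ) : ℂ) - prim f (z : ℂ)).re = n * realPeriod W) :
    ∃ s t : ℤ, Per f ℓ (realPeriod W) cc s t := by
  have : Fact ℓ.Prime := ⟨hℓ⟩
  obtain ⟨L₀, hL1, hL2, hL4, r, hr1, hr2, hr3⟩ := hB.formula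
  rw [units_val hℓ hU] at hr3
  have hOQ : Omega ℚ W = realPeriod W := by
    unfold Omega
    rw [nrRealPlaces_eq_one_of_finrank_eq_one (Module.finrank_self ℚ),
      nrComplexPlaces_eq_zero_of_finrank_eq_one (Module.finrank_self ℚ), pow_one, pow_zero, mul_one]
  have hL3 : L₀ 1 = r * realPeriod W := by
    rw [hOQ] at hr1
    simp only [Rat.numberField_discr] at hr1
    simpa using hr1
  have hL0 : L₀ 1 ≠ 0 := by
    intro h
    have h1 : AnalyticAt ℂ L₀ 1 := hL1.analyticAt 1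
    rw [h1.analyticOrderAt_eq_zero] at hL4
    exact hL4 h
  obtain ⟨hnum, hden⟩ : ¬ (ℓ : ℤ) ∣ r.num ∧ ¬ ℓ ∣ r.den := by
    have h1 : padicValRat ℓ r = (padicValInt ℓ r.num : ℤ) - padicValNat ℓ r.den :=
      padicValRat_def ℓ r
    have hcop : Nat.Coprime r.num.natAbs r.den := r.reduced
    have hnd : ¬ (ℓ ∣ r.num.natAbs ∧ ℓ ∣ r.den) := by
      rintro ⟨h2, h3⟩
      have h4 := Nat.dvd_gcd h2 h3
      rw [hcop] at h4
      exact hℓ.one_lt.ne' (Nat.dvd_one.1 h4)
    rw [hr3] at h1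
    have hn0 : r.num.natAbs ≠ 0 := Int.natAbs_ne_zero.2 (Rat.num_ne_zero.2 hr2)
    constructor
    · intro h
      have h2 : ℓ ∣ r.num.natAbs := Int.natCast_dvd.1 h
      have h3 : ¬ ℓ ∣ r.den := fun h4 => hnd ⟨h2, h4⟩
      rw [padicValNat.eq_zero_of_not_dvd h3] at h1
      have h4 : 1 ≤ padicValNat ℓ r.num.natAbs := one_le_padicValNat_of_dvd hn0 h2
      unfold padicValInt at h1
      omega
    · intro h
      have h3 : ¬ ℓ ∣ r.num.natAbs := fun h4 => hnd ⟨h4, h⟩
      unfold padicValInt at h1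
      rw [padicValNat.eq_zero_of_not_dvd h3] at h1
      have h4 : 1 ≤ padicValNat ℓ r.den := one_le_padicValNat_of_dvd r.den_ne_zero h
      omega
  have hfI := isForm hf
  have hbv := bv_zero Pool.Agent.Y563.G.s_epq hfI L₀ hL1 hL2
  have hval0 : ((r.den : ℤ) : ℂ) * Pool.Agent.Y18.BSD.bv f 0 = (r.num : ℂ) * (realPeriod W : ℂ) := by
    rw [hbv, hL3]
    have h2 : ((r.den : ℤ) : ℂ) * (r : ℂ) = (r.num : ℂ) := by
      have h3 : ((r.den : ℤ) : ℚ) * r = (r.num : ℚ) := by
        rw [Int.cast_natCast]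
        exact Rat.den_mul_eq_num r
      exact_mod_cast congrArg (fun x : ℚ => (x : ℂ)) h3
    linear_combination (realPeriod W : ℂ) * h2
  have hpos : 0 < realPeriod W := by
    have h0 : 0 ≤ realPeriod W := by
      unfold realPeriod
      have := MeasureTheory.integral_nonneg (μ := volume.restrict {x : ℝ | 0 < cubic W x})
        (f := fun x : ℝ => 1 / √(cubic W x)) (fun x => by positivity)
      positivity
    refine lt_of_le_of_ne h0 fun h => hL0 ?_
    rw [hL3, ← h, Complex.ofReal_zero, mul_zero]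
  refine ⟨r.num, (r.den : ℤ), hpos, hcc, ?_, hnum, fun h => hden (Int.natCast_dvd_natCast.1 h),
    hval0⟩
  rintro x ⟨γ, rfl⟩
  have h1 := Pool.Agent.Y18.BSD.per_spec f (Additive.toMul γ) UpperHalfPlane.I
  obtain ⟨A, h2⟩ := hman _ (Additive.toMul γ).2 UpperHalfPlane.I
  refine ⟨A, ?_⟩
  have h3 : prim f ((((Additive.toMul γ : Gamma0 N) : SL(2, ℤ)) • UpperHalfPlane.I : ℍ) : ℂ) -
      prim f (UpperHalfPlane.I : ℂ) = Pool.Agent.Y18.BSD.per f (Additive.toMul γ) := by
    have h4 : prim f ((((Additive.toMul γ : Gamma0 N) : SL(2, ℤ)) • UpperHalfPlane.I : ℍ) : ℂ) =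
        prim f (UpperHalfPlane.I : ℂ) + Pool.Agent.Y18.BSD.per f (Additive.toMul γ) := h1
    rw [h4]
    ring
  rw [h3] at h2
  exact h2

end proof

/-- **Main theorem.** Let `ℓ` be an odd prime and `m` squarefree with `l ≡ 1 (mod ℓ)`, `l ∤ Δ` and
`ℓ ∤ #E(𝔽_l)` for all primes `l` that divide `m`, let `ρ` be an action of `(ℤ/m)ˣ` on `M = ℤ^g` through
an `ℓ`-group, where `g` is arbitrary, such that the primes `p ∣ 6 ℓ Δ` act trivially on `M`, and let `E`
satisfy the conditions `Seed`.  Then the `ℓ`-part of the Birch and Swinnerton-Dyer conjecture holds for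
`A = E ⊗ M`, the orders of `A(ℚ)`, `A'(ℚ)` are prime to `ℓ` and `Ш(A)[ℓ^∞] = 0`. -/
theorem result (ℓ : ℕ) (hℓ : ℓ.Prime) (hℓ2 : ℓ ≠ 2) (W : WeierstrassCurve ℤ) (hW : Seed ℓ W)
    (m : ℕ) [NeZero m] (hsq : Squarefree m)
    (hm : ∀ l : ℕ, l.Prime → l ∣ m → l % ℓ = 1 ∧ ¬ (l : ℤ) ∣ W.Δ ∧ ¬ ℓ ∣ pts W (ZMod l) + 1)
    (g n : ℕ) (ρ : (ZMod m)ˣ →* GL (Fin g) ℤ) (hρ : ∀ u, ρ u ^ (ℓ ^ n) = 1)
    (hsp : ∀ p : ℕ, p.Prime → (p : ℤ) ∣ 6 * ℓ * W.Δ →
      ∀ u : (ZMod m)ˣ, (u : ZMod m) = p → ρ u = 1)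
    (κ : Gal ℚ →* (ZMod m)ˣ)
    (hκ : ∀ (σ : Gal ℚ) (ζ : AlgebraicClosure ℚ), ζ ^ m = 1 → σ ζ = ζ ^ ((κ σ : ZMod m)).val) :
    OddPart ℓ W ρ κ := by
  obtain ⟨hΔ, ⟨N, hN, f, c, hf, hc, hman⟩, hB, hU⟩ := hW
  have hℓ3 : 3 ≤ ℓ := by
    have := hℓ.two_le
    omega
  -- the primes that divide `m`
  have hm1 : ∀ l : ℕ, l.Prime → l ∣ m → (ℓ : ℤ) ∣ (l : ℤ) - 1 ∧ ¬ ℓ ∣ pts W (ZMod l) + 1 := by
    intro l hl hlm
    obtain ⟨h1, -, h3⟩ := hm l hl hlm
    refine ⟨⟨((l / ℓ : ℕ) : ℤ), ?_⟩, h3⟩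
    have h4 := Nat.div_add_mod l ℓ
    rw [h1] at h4
    have h5 : ((ℓ * (l / ℓ) + 1 : ℕ) : ℤ) = (l : ℤ) := by rw [h4]
    rw [← h5]
    push_cast
    ring
  have hm2 : ∀ l : ℕ, l.Prime → l ∣ m → ¬ (l : ℤ) ∣ 6 * ℓ * W.Δ ∧ ¬ ℓ ∣ pts W (ZMod l) + 1 := by
    intro l hl hlm
    obtain ⟨h1, h2, h3⟩ := hm l hl hlm
    refine ⟨fun h => ?_, h3⟩
    have hlp : Prime (l : ℤ) := Nat.prime_iff_prime_int.1 hl
    have hlb : ℓ < l := by
      by_contra hle
      have hle' : l ≤ ℓ := not_lt.1 hle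
      rcases hle'.lt_or_eq with h4 | h4
      · rw [Nat.mod_eq_of_lt h4] at h1
        exact hl.one_lt.ne' h1
      · rw [h4, Nat.mod_self] at h1
        omega
    rcases hlp.dvd_or_dvd h with h4 | h4
    · rcases hlp.dvd_or_dvd h4 with h5 | h5
      · have h6 : l ∣ 2 * 3 := by exact_mod_cast h5
        rcases hl.dvd_mul.1 h6 with h7 | h7
        · have := Nat.le_of_dvd (by norm_num) h7
          omega
        · have := Nat.le_of_dvd (by norm_num) h7
          omega
      · have h6 := (Nat.prime_dvd_prime_iff_eq hl hℓ).1 (Int.natCast_dvd_natCast.1 h5)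
        omega
    · exact h2 h4
  have hcoN : Nat.Coprime m N := by
    rw [Nat.coprime_iff_gcd_eq_one]
    by_contra h
    obtain ⟨l, hl, hl2⟩ := Nat.exists_prime_and_dvd h
    have h3 := (hf.level l hl).1 (hl2.trans (Nat.gcd_dvd_right _ _))
    exact (hm l hl (hl2.trans (Nat.gcd_dvd_left _ _))).2.1 h3
  -- the algebraic side
  have hcard : ¬ ℓ ∣ Nat.card (base W ℚ).toAffine.Point := by
    have h := hU.tors
    rwa [tors_eq hB.points, Nat.card_univ] at h
  have hsha : ∀ s : Sha (base W ℚ), ℓ • s = 0 → s = 0 := by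
    intro s hs
    have h1 : s ∈ ShaP ℚ ℓ W := ⟨1, by rw [pow_one]; exact hs⟩
    rw [hU.sha] at h1
    exact h1
  have hT := Pool.Agent.N783.OA.triv hℓ hℓ2 W hΔ hB.points hcard hsha m hm2 ρ hρ hsp
  obtain ⟨a1, a2, a3⟩ := Pool.Agent.N783.OA.alg_lib hℓ ρ hρ κ hκ hT
  -- the analytic side
  obtain ⟨s, t, hP⟩ := per_of hℓ hB hU f hf c hc hman
  obtain ⟨L, b1, b2, b3, r, b4, b5, b6⟩ := Pool.Agent.N783.OA.lib_an Pool.Agent.Y153.AREP.s_rep
    hℓ hℓ2 hΔ (isForm hf) hP m hsq hcoN hm1 ρ hρ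
  refine ⟨a1, a2, ?_, L, b1, b2, b3, r, ?_, b5, b6⟩
  · intro f hf k hk
    exact Pool.Agent.N783.OA.sha_coc (ρ.comp κ) a3 f hf k hk
  have hpos : 0 < √(cond ρ : ℝ) := by
    apply Real.sqrt_pos.2
    have h1 : 0 < cond ρ := Finset.prod_pos fun l hl =>
      Nat.pow_pos (Nat.prime_of_mem_primeFactors hl).pos
    exact_mod_cast h1
  have hc0 : ((√(cond ρ : ℝ) : ℝ) : ℂ) ≠ 0 := by exact_mod_cast hpos.ne'
  have h2 : L 1 * ((√(cond ρ : ℝ) : ℝ) : ℂ) =
      r * ((realPeriod W ^ g * ∏ p ∈ W.Δ.natAbs.primeFactors, bad ρ W p : ℝ) : ℂ) := b4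
  have h3 : ((Vinf ρ W * ∏ p ∈ W.Δ.natAbs.primeFactors, bad ρ W p : ℝ) : ℂ) =
      ((realPeriod W ^ g * ∏ p ∈ W.Δ.natAbs.primeFactors, bad ρ W p : ℝ) : ℂ) /
        ((√(cond ρ : ℝ) : ℝ) : ℂ) := by
    rw [← Complex.ofReal_div]
    congr 1
    unfold Vinf
    ring
  rw [Complex.ofReal_mul] at h3
  rw [h3, mul_div_assoc', eq_div_iff hc0]
  exact h2

end Pool.Agent.Results.MP_dfae13_nt.OddPartTensor
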