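import Pool.Agent.N783.OL.Main
import Pool.Agent.N783.OL.Alg
import Pool.Agent.Y702.F.Unr
import Pool.Agent.Y852.GS.Tams
import Pool.Agent.Y852.GS.Mins
import Pool.Agent.Y779.G.Tam
import Pool.Agent.Y238.G.Hasp
import Pool.Agent.Y563.G.Epq
import Pool.Agent.Y702.G.Sel
import Pool.Agent.Y702.G.Sel2
import Pool.Agent.Y702.F.Tam

/-!
# The `ℓ`-part of the Birch and Swinnerton-Dyer conjecture, `ℓ` odd: from `ℚ` to abelian `ℓ`-extensions

`W` is the minimal equation of an elliptic curve `E` over `ℚ`, `ℓ` is an odd prime (of any reduction type)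
and `K ⊂ ℚ(ζ_m)` is an abelian number field of degree `ℓ^n` in which the primes that divide `6 ℓ Δ` split
completely; `m` is a product of different primes `l ≡ 1 (mod ℓ)` of good reduction with
`ℓ ∤ #E(𝔽_l)`.  If `E(ℚ)` is finite, its order, the Tamagawa numbers and `L(E/ℚ, 1) / Ω` are prime to `ℓ`
and `Ш(E/ℚ)[ℓ] = 0` then the `ℓ`-part of the Birch and Swinnerton-Dyer conjecture holds for `E` over `K`,
with all terms prime to `ℓ`: continuation and order of the `L`-function, rank,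
finiteness of `Ш[ℓ^∞]`, and the formula for `L(E/K, 1) √|Δ_K| / Ω` up to `ℓ`-adic units.

The proof.  Algebraic side: a nonzero group of locally trivial classes (or of points modulo `ℓ`) over the
`ℓ`-extension `K` has a nonzero element fixed by `Gal(K/ℚ)`; it extends to a class over `ℚ` as `E(K)` has
no points of order `ℓ`; the extension is locally trivial over `ℚ`: at the primes that divide `6 ℓ Δ` as
they split, at the primes `l` that divide `m` as `E(ℚ_l)` has no points of order `ℓ`, at the others as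
`K` is unramified there.  Analytic side: `L(E/K, s)` is the product of the twists `L(E, χ, s)` over the
characters of `K`, which are even and entire, and `τ(χ) L(E, χ⁻¹, 1)` is the real period times an
algebraic number; modulo the primes above `ℓ` these numbers are congruent to a sum of modular symbols that
does not depend on `χ`, and is `∏ (a_l - 2)` times the number for `χ = 1` up to a unit.
-/

set_option autoImplicit false

open NumberField NumberField.InfinitePlace IsDedekindDomain WeierstrassCurve MeasureTheory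
open UpperHalfPlane MatrixGroups CongruenceSubgroup

namespace Pool.Agent.Results.MP_e996df_nt.OddPartLifting

open scoped Classical

open Pool.Agent.TH841.NF.D (Sha)

/-- The curve given by the equation of `W` over the ring `R`. -/
abbrev base (W : WeierstrassCurve ℤ) (R : Type) [CommRing R] : WeierstrassCurve R :=
  W.map (Int.castRingHom R)

/-- The number of the affine points `(x, y)` over the ring `R`. -/
noncomputable def pts (W : WeierstrassCurve ℤ) (R : Type) [CommRing R] : ℕ :=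
  Nat.card {P : R × R // (base W R).toAffine.Equation P.1 P.2}

section

variable {K : Type} [Field K] [NumberField K]

/-- `a_v = N v + 1 - #W(k_v)`, the points over the residue field `k_v` counted with the point at
infinity. -/
noncomputable def a (W : WeierstrassCurve ℤ) (v : HeightOneSpectrum (𝓞 K)) : ℤ :=
  (Ideal.absNorm v.asIdeal : ℤ) - pts W (𝓞 K ⧸ v.asIdeal)

/-- The Euler factor of `L(W/K, s)` at `v` : `(1 - a_v N v^(-s) + N v^(1 - 2 s))⁻¹` if the
discriminant is a unit at `v`, and `(1 - a_v N v^(-s))⁻¹` otherwise. -/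
noncomputable def factor (W : WeierstrassCurve ℤ) (s : ℂ) (v : HeightOneSpectrum (𝓞 K)) : ℂ :=
  (1 - (a W v : ℂ) * (Ideal.absNorm v.asIdeal : ℂ) ^ (-s) +
    if ((W.Δ : ℤ) : 𝓞 K) ∈ v.asIdeal then 0 else (Ideal.absNorm v.asIdeal : ℂ) ^ (1 - 2 * s))⁻¹

/-- The equation is minimal at the finite place `v` of `K`: no change of variables over `K` that
keeps the coefficients integral at `v` decreases the valuation of the discriminant. -/
def MinimalAt (W : WeierstrassCurve ℤ) (v : HeightOneSpectrum (𝓞 K)) : Prop :=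
  ∀ C : VariableChange K, v.valuation K (C • base W K).a₁ ≤ 1 →
    v.valuation K (C • base W K).a₂ ≤ 1 → v.valuation K (C • base W K).a₃ ≤ 1 →
    v.valuation K (C • base W K).a₄ ≤ 1 → v.valuation K (C • base W K).a₆ ≤ 1 →
    v.valuation K (C • base W K).Δ ≤ v.valuation K (base W K).Δ

/-- `E⁰(K_v)`, the group of the points of `W` over the completion `K_v` with nonsingular reduction:
the points `(x, y)` where `x` is not integral, or one of the partial derivatives of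
`y² + a₁ x y + a₃ y - x³ - a₂ x² - a₄ x - a₆` is a unit at `(x, y)`, and the point at infinity. -/
noncomputable def nonsing (W : WeierstrassCurve ℤ) (v : HeightOneSpectrum (𝓞 K)) :
    AddSubgroup (base W (v.adicCompletion K)).toAffine.Point :=
  AddSubgroup.closure {P | ∀ x y h, P = Affine.Point.some x y h →
    1 < Valued.v x ∨ Valued.v (W.a₁ * y - (3 * x ^ 2 + 2 * W.a₂ * x + W.a₄)) = 1 ∨
      Valued.v (2 * y + W.a₁ * x + W.a₃) = 1}

/-- The Tamagawa number `c_v = [E(K_v) : E⁰(K_v)]` of a minimal equation. -/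
noncomputable def c (W : WeierstrassCurve ℤ) (v : HeightOneSpectrum (𝓞 K)) : ℕ :=
  (nonsing W v).index

end

section

variable (K : Type) [Field K] [NumberField K]

/-- The product of the Tamagawa numbers. -/
noncomputable def Tam (W : WeierstrassCurve ℤ) : ℕ := ∏ᶠ v : HeightOneSpectrum (𝓞 K), c W v

/-- The `ℓ`-primary part of the Tate-Shafarevich group over `K`. -/
def ShaP (ℓ : ℕ) (W : WeierstrassCurve ℤ) : Set (Sha (base W K)) := {x | ∃ n : ℕ, ℓ ^ n • x = 0}

/-- The torsion subgroup of the group of the points over `K`. -/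
def tors (W : WeierstrassCurve ℤ) : Set (base W K).toAffine.Point := {P | ∃ n : ℕ, 0 < n ∧ n • P = 0}

/-- The rank of the group of the points over `K`. -/
noncomputable def rank (W : WeierstrassCurve ℤ) : ℕ := Module.finrank ℤ (base W K).toAffine.Point

end

/-- `4 x³ + b₂ x² + 2 b₄ x + b₆ = (2 y + a₁ x + a₃)²`, where `b₂ = a₁² + 4 a₂`,
`b₄ = 2 a₄ + a₁ a₃`, `b₆ = a₃² + 4 a₆`. -/
def cubic (W : WeierstrassCurve ℤ) {R : Type} [CommRing R] (x : R) : R :=
  4 * x ^ 3 + W.b₂ * x ^ 2 + 2 * W.b₄ * x + W.b₆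

/-- `∫_{W(ℝ)} |ω|` with `ω = dx / (2 y + a₁ x + a₃)`, as an integral over `x`: two real points lie
over each `x` with `cubic x > 0`. -/
noncomputable def realPeriod (W : WeierstrassCurve ℤ) : ℝ :=
  2 * ∫ x in {x : ℝ | 0 < cubic W x}, 1 / √(cubic W x)

/-- `2 ∫_{W(ℂ)} |ω ∧ ω̄|`, where `|ω ∧ ω̄| = du dv` in a local parameter `z = u + i v` with
`dz = ω`, as an integral over `x`: two points lie over a general `x`, and `|ω ∧ ω̄|` is the area
element of the plane of `x` divided by `|cubic x|`. -/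
noncomputable def complexPeriod (W : WeierstrassCurve ℤ) : ℝ := 2 * (2 * ∫ x : ℂ, 1 / ‖cubic W x‖)

/-- The global period of an equation that is minimal at all finite places. -/
noncomputable def Omega (K : Type) [Field K] [NumberField K] (W : WeierstrassCurve ℤ) : ℝ :=
  realPeriod W ^ nrRealPlaces K * complexPeriod W ^ nrComplexPlaces K

/-- **The `ℓ`-part of the Birch and Swinnerton-Dyer conjecture** for `W` over `K`, the equation being
minimal and the rank being zero: almost all Tamagawa numbers are one; the `L`-function is entire; its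
order at `s = 1` is the rank; the `ℓ`-primary part of the Tate-Shafarevich group is finite; and
`L(1) √|Δ_K| / Ω` is a rational number with the same `ℓ`-adic valuation as
`#Ш[ℓ^∞] Tam / #tors²`. -/
structure BSDPart (ℓ : ℕ) (K : Type) [Field K] [NumberField K] (W : WeierstrassCurve ℤ) : Prop where
  minimal : ∀ v : HeightOneSpectrum (𝓞 K), MinimalAt W v
  tam : {v : HeightOneSpectrum (𝓞 K) | c W v ≠ 1}.Finite
  rank : rank K W = 0
  points : Finite (base W K).toAffine.Point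
  sha : (ShaP K ℓ W).Finite
  formula : ∃ L : ℂ → ℂ, Differentiable ℂ L ∧
    (∀ s : ℂ, 3 / 2 < s.re → HasProd (factor (K := K) W s) (L s)) ∧ analyticOrderAt L 1 = 0 ∧
    ∃ r : ℚ, L 1 * √|(discr K : ℝ)| = r * Omega K W ∧ r ≠ 0 ∧
      padicValRat ℓ r = padicValRat ℓ
        ((Nat.card (ShaP K ℓ W) * Tam K W : ℚ) / (Nat.card (tors K W) : ℚ) ^ 2)

/-- The entire function `L` given by the Euler product of `W` over `ℚ` has the value
`L(1) = r Ω ≠ 0` with the real period `Ω` of `W`. -/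
def LValue (W : WeierstrassCurve ℤ) (r : ℚ) : Prop :=
  ∃ L : ℂ → ℂ, Differentiable ℂ L ∧
    (∀ s : ℂ, 3 / 2 < s.re → HasProd (factor (K := ℚ) W s) (L s)) ∧ L 1 ≠ 0 ∧ L 1 = r * realPeriod W

/-- The algebraic terms of the formula are prime to `ℓ`. -/
structure AllUnits (ℓ : ℕ) (K : Type) [Field K] [NumberField K] (W : WeierstrassCurve ℤ) : Prop where
  sha : ShaP K ℓ W = {0}
  tam : ¬ ℓ ∣ Tam K W
  tors : ¬ ℓ ∣ Nat.card (tors K W)

section modular

variable {N : ℕ}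

/-- The `n`-th coefficient of the cusp form `f = ∑ a_n q^n`. -/
noncomputable def co (f : CuspForm (Gamma0 N : Subgroup (GL (Fin 2) ℝ)) 2) (n : ℕ) : ℂ :=
  (qExpansion 1 f).coeff n

/-- `2 π i ∫_(i∞)^z f(w) dw = ∑ a_n / n e^(2 π i n z)`. -/
noncomputable def prim (f : CuspForm (Gamma0 N : Subgroup (GL (Fin 2) ℝ)) 2) (z : ℂ) : ℂ :=
  ∑' n : ℕ, co f n / n * Complex.exp (2 * Real.pi * Complex.I * n * z)

/-- The cusp form `f` of weight two for `Γ₀(N)` is the newform of `W`: it is a normalised eigenform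
of the Hecke operators and of the Fricke involution, with real coefficients that satisfy the bounds
of Hasse, `N` has the same prime divisors as the discriminant, and `a_p = p + 1 - #W(𝔽_p)`. -/
structure IsNewform (W : WeierstrassCurve ℤ) (N : ℕ)
    (f : CuspForm (Gamma0 N : Subgroup (GL (Fin 2) ℝ)) 2) : Prop where
  one : co f 1 = 1
  real : ∀ n, (co f n).im = 0
  mul : ∀ m n : ℕ, Nat.Coprime m n → co f (m * n) = co f m * co f n
  pow : ∀ p j : ℕ, p.Prime → co f (p ^ (j + 2)) = co f p * co f (p ^ (j + 1)) -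
      (if p ∣ N then 0 else (p : ℂ) * co f (p ^ j))
  good : ∀ p : ℕ, p.Prime → ¬ p ∣ N → ‖co f p‖ ≤ 2 * Real.sqrt p
  bad : ∀ p : ℕ, p.Prime → p ∣ N → ‖co f p‖ ≤ 1
  fricke : ∃ w : ℝ, (w = 1 ∨ w = -1) ∧ ∀ τ τ' : ℍ, (τ' : ℂ) * ((N : ℂ) * (τ : ℂ)) = -1 →
    f τ' = -(w : ℂ) * (N : ℂ) * (τ : ℂ) ^ 2 * f τ
  level : ∀ p : ℕ, p.Prime → (p ∣ N ↔ (p : ℤ) ∣ W.Δ)
  coef : ∀ p : ℕ, p.Prime → co f p = (p : ℂ) - (pts W (ZMod p) : ℂ)

end modular

section proof

open Pool.Agent.Y702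
open Pool.Agent.N783.OL (Per l_main alg)

variable {N : ℕ} [NeZero N]

lemma isForm {W : WeierstrassCurve ℤ} {f : CuspForm (Gamma0 N : Subgroup (GL (Fin 2) ℝ)) 2}
    (h : IsNewform W N f) : G.IsForm W N f :=
  ⟨h.one, h.real, h.mul, h.pow, h.good, h.bad, h.fricke, h.level, h.coef⟩

lemma factor_eq {K : Type} [Field K] [NumberField K] (W : WeierstrassCurve ℤ) (s : ℂ) :
    factor (K := K) W s = G.factor (K := K) W s := rfl

lemma min_eq {K : Type} [Field K] [NumberField K] (W : WeierstrassCurve ℤ)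
    (v : HeightOneSpectrum (𝓞 K)) : MinimalAt W v ↔ G.MinimalAt W v := Iff.rfl

lemma c_eq {K : Type} [Field K] [NumberField K] (W : WeierstrassCurve ℤ)
    (v : HeightOneSpectrum (𝓞 K)) : c W v = (G.E0 W (v.adicCompletion K) Valued.v).index := rfl

/-- the value of the `L`-function over `ℚ` is the value of the integral of `f` -/
theorem bv_zero (hE : G.S_EPQ) {W : WeierstrassCurve ℤ}
    {f : CuspForm (Gamma0 N : Subgroup (GL (Fin 2) ℝ)) 2} (hf : G.IsForm W N f) (L : ℂ → ℂ)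
    (hL : Differentiable ℂ L)
    (hp : ∀ s : ℂ, 3 / 2 < s.re → HasProd (factor (K := ℚ) W s) (L s)) :
    Pool.Agent.Y18.BSD.bv f 0 = L 1 := by
  obtain ⟨H, h1, h2, h3⟩ := G.twist hf 1 (Nat.coprime_one_left N) (1 : DirichletCharacter ℂ 1)
    (DirichletCharacter.isPrimitive_one_level_one)
  have e : L = H := by
    have hLa : AnalyticOnNhd ℂ L Set.univ := fun z _ => hL.analyticAt z
    have hHa : AnalyticOnNhd ℂ H Set.univ := fun z _ => h1.analyticAt z
    refine hLa.eq_of_eventuallyEq hHa (z₀ := 2) ?_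
    have hopen : IsOpen {s : ℂ | 3 / 2 < s.re} := isOpen_lt continuous_const Complex.continuous_re
    filter_upwards [hopen.mem_nhds (show (2 : ℂ) ∈ {s : ℂ | 3 / 2 < s.re} by
      simp only [Set.mem_ofPred_eq]; norm_num)] with s hs
    have h4 := hE W N f hf s (L s) (hp s hs)
    have h5 := h2 s hs
    refine h4.unique (h5.congr_fun fun p => ?_)
    have hz : ((p : ℕ) : ZMod 1) = 1 := Subsingleton.elim _ _
    rw [hz, map_one, mul_one, one_pow, mul_one]
  rw [e]
  have hd : ((default : (ZMod 1)ˣ)) = 1 := Subsingleton.elim _ _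
  have hv : (((1 : (ZMod 1)ˣ) : ZMod 1).val : ℚ) / ((1 : ℕ) : ℚ) = 0 := by
    have : (((1 : (ZMod 1)ˣ) : ZMod 1)).val = 0 := by
      have := ZMod.val_lt ((1 : (ZMod 1)ˣ) : ZMod 1)
      omega
    rw [this]; simp
  rw [Fintype.sum_unique, hd, hv, Units.val_one, map_one, one_mul] at h3
  have hg : gaussSum (1 : DirichletCharacter ℂ 1)⁻¹ (ZMod.stdAddChar (N := 1)) = 1 := by
    unfold gaussSum
    have h6 : ∀ x : ZMod 1, (1 : DirichletCharacter ℂ 1)⁻¹ x * ZMod.stdAddChar (N := 1) x = 1 := by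
      intro x
      have e1 : (1 : DirichletCharacter ℂ 1)⁻¹ x = 1 := by
        rw [Subsingleton.elim x 1, map_one]
      have e2 : ZMod.stdAddChar (N := 1) x = 1 := by
        rw [Subsingleton.elim x 0, AddChar.map_zero_eq_one]
      rw [e1, e2, one_mul]
    rw [Finset.sum_congr rfl fun x _ => h6 x]
    simp
  rw [hg, one_mul] at h3
  exact h3.symm

lemma val_zero {ℓ : ℕ} (hℓ : ℓ.Prime) (D M : ℤ) (hD : ¬ (ℓ : ℤ) ∣ D) (hM : ¬ (ℓ : ℤ) ∣ M) (ε : ℚ)
    (hε : ε = 1 ∨ ε = -1) : padicValRat ℓ (ε * (|(M : ℚ)| / |(D : ℚ)|)) = 0 := by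
  have : Fact ℓ.Prime := ⟨hℓ⟩
  have ne : ∀ N : ℤ, ¬ (ℓ : ℤ) ∣ N → (N : ℚ) ≠ 0 := by
    intro N hN h
    have : N = 0 := by exact_mod_cast h
    rw [this] at hN
    exact hN (dvd_zero _)
  have h1 : ∀ N : ℤ, ¬ (ℓ : ℤ) ∣ N → padicValRat ℓ |(N : ℚ)| = 0 := by
    intro N hN
    have e : |(N : ℚ)| = ((N.natAbs : ℕ) : ℚ) := by
      rw [Nat.cast_natAbs, Int.cast_abs]
    rw [e, padicValRat.of_nat]
    have : ¬ ℓ ∣ N.natAbs := fun h => hN (Int.natCast_dvd.2 h)
    rw [padicValNat.eq_zero_of_not_dvd this]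
    rfl
  have h2 : padicValRat ℓ (|(M : ℚ)| / |(D : ℚ)|) = 0 := by
    rw [padicValRat.div (abs_ne_zero.2 (ne M hM)) (abs_ne_zero.2 (ne D hD)), h1 M hM, h1 D hD,
      sub_zero]
  rcases hε with rfl | rfl
  · rw [one_mul]; exact h2
  · rw [neg_one_mul, padicValRat.neg]; exact h2

section alg

variable {K : Type} [Field K] [NumberField K] {W : WeierstrassCurve ℤ} {ℓ : ℕ}

lemma tors_eq (h : Finite (base W K).toAffine.Point) : tors K W = Set.univ := by
  ext P
  simp only [Set.mem_univ, iff_true]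
  exact ⟨Nat.card (base W K).toAffine.Point, Nat.card_pos,
    card_nsmul_eq_zero' (G := (base W K).toAffine.Point) (x := P)⟩

lemma rank_eq (h : Finite (base W K).toAffine.Point) : rank K W = 0 := by
  unfold rank
  apply Module.IsTorsion.finrank_eq_zero
  intro P
  refine ⟨⟨(Nat.card (base W K).toAffine.Point : ℤ), ?_⟩, ?_⟩
  · rw [mem_nonZeroDivisors_iff_ne_zero]
    exact_mod_cast Nat.card_pos.ne'
  · show (Nat.card (base W K).toAffine.Point : ℤ) • P = 0
    rw [natCast_zsmul]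
    exact card_nsmul_eq_zero'

lemma sha_eq (h : ∀ s : Sha (base W K), ℓ • s = 0 → s = 0) : ShaP K ℓ W = {0} := by
  have key : ∀ (j : ℕ) (x : Sha (base W K)), ℓ ^ j • x = 0 → x = 0 := by
    intro j
    induction j with
    | zero => intro x hx; rw [pow_zero, one_nsmul] at hx; exact hx
    | succ j ih =>
      intro x hx
      rw [pow_succ, mul_nsmul] at hx
      exact ih x (h _ hx)
  ext x
  constructor
  · rintro ⟨k, hk⟩
    exact key k x hk
  · rintro rfl
    exact ⟨0, nsmul_zero _⟩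

lemma ne_zero_of {a : ℕ} (h : ¬ ℓ ∣ a) : a ≠ 0 := fun h0 => h (h0 ▸ dvd_zero _)

lemma units_val (hℓ : ℓ.Prime) (h : AllUnits ℓ K W) : padicValRat ℓ
    ((Nat.card (ShaP K ℓ W) * Tam K W : ℚ) / (Nat.card (tors K W) : ℚ) ^ 2) = 0 := by
  rw [h.sha, Nat.card_unique, Nat.cast_one, one_mul]
  have : Fact ℓ.Prime := ⟨hℓ⟩
  rw [padicValRat.div (Nat.cast_ne_zero.2 (ne_zero_of h.tam))
    (pow_ne_zero _ (Nat.cast_ne_zero.2 (ne_zero_of h.tors))), padicValRat.pow, padicValRat.of_nat,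
    padicValRat.of_nat, padicValNat.eq_zero_of_not_dvd h.tam,
    padicValNat.eq_zero_of_not_dvd h.tors]
  simp

end alg

section core

variable {N : ℕ} [NeZero N]

theorem core (W : WeierstrassCurve ℤ) (hΔ : W.Δ ≠ 0)
    (hmin : ∀ v : HeightOneSpectrum (𝓞 ℚ), MinimalAt W v)
    (f : CuspForm (Gamma0 N : Subgroup (GL (Fin 2) ℝ)) 2) (hf : IsNewform W N f)
    (ℓ : ℕ) (hℓ : ℓ.Prime) (hℓ2 : ℓ ≠ 2)
    (hman : ∃ c : ℤ, ¬ (ℓ : ℤ) ∣ c ∧ ∀ γ ∈ Gamma0 N, ∀ z : ℍ, ∃ n : ℤ,
      c * (prim f ((γ • z : ℍ) : ℂ) - prim f (z : ℂ)).re = n * realPeriod W)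
    (hfinQ : Finite (base W ℚ).toAffine.Point)
    (hcardQ : ¬ ℓ ∣ Nat.card (base W ℚ).toAffine.Point)
    (htamQ : ∀ v : HeightOneSpectrum (𝓞 ℚ), ¬ ℓ ∣ c W v)
    (hshaQ : ∀ s : Sha (base W ℚ), ℓ • s = 0 → s = 0)
    (r : ℚ) (hr : LValue W r) (hnum : ¬ (ℓ : ℤ) ∣ r.num) (hden : ¬ ℓ ∣ r.den)
    (m : ℕ) [NeZero m] (hsq : Squarefree m)
    (hm : ∀ l : ℕ, l.Prime → l ∣ m → l % ℓ = 1 ∧ ¬ (l : ℤ) ∣ W.Δ ∧ ¬ ℓ ∣ pts W (ZMod l) + 1)
    (M : Type) [Field M] [NumberField M] [IsCyclotomicExtension {m} ℚ M]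
    (K : IntermediateField ℚ M) (n : ℕ) (hn : Module.finrank ℚ K = ℓ ^ n)
    (hsplit : ∀ v : HeightOneSpectrum (𝓞 K), ((6 * ℓ * W.Δ : ℤ) : 𝓞 K) ∈ v.asIdeal →
      (Ideal.absNorm v.asIdeal).Prime) :
    BSDPart ℓ K W ∧ AllUnits ℓ K W := by
  have hℓi : Prime (ℓ : ℤ) := Nat.prime_iff_prime_int.1 hℓ
  have hℓ3 : 3 ≤ ℓ := by
    have := hℓ.two_le
    omega
  have hfI := isForm hf
  have hgal : IsGalois ℚ K := Pool.Agent.Y702.L.gal_F m M K
  have hunr : ∀ (p : ℕ), p.Prime → ¬ p ∣ m → ∀ v : HeightOneSpectrum (𝓞 K), (p : 𝓞 K) ∈ v.asIdeal →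
      v.valuation K (p : K) = WithZero.exp (-1 : ℤ) :=
    fun p hp hpm v hv => Pool.Agent.Y702.Fn.unr m M K hp hpm v hv
  -- the primes that divide `m`
  have hm1 : ∀ l : ℕ, l.Prime → l ∣ m → (ℓ : ℤ) ∣ (l : ℤ) - 1 ∧ ¬ ℓ ∣ pts W (ZMod l) + 1 := by
    intro l hl hlm
    obtain ⟨h1, -, h3⟩ := hm l hl hlm
    refine ⟨⟨((l / ℓ : ℕ) : ℤ), ?_⟩, h3⟩
    have h4 := Nat.div_add_mod l ℓ
    rw [h1] at h4
    have h5 : ((ℓ * (l / ℓ) + 1 : ℕ) : ℤ) = (l : ℤ) := by rw [h4]
    rw [← h5]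
    push_cast
    ring
  have hm2 : ∀ l : ℕ, l.Prime → l ∣ m → ¬ (l : ℤ) ∣ 6 * ℓ * W.Δ ∧ ¬ ℓ ∣ pts W (ZMod l) + 1 := by
    intro l hl hlm
    obtain ⟨h1, h2, h3⟩ := hm l hl hlm
    refine ⟨fun h => ?_, h3⟩
    have hlp : Prime (l : ℤ) := Nat.prime_iff_prime_int.1 hl
    have hlb : ℓ < l := by
      by_contra hle
      have hle' : l ≤ ℓ := not_lt.1 hle
      rcases hle'.lt_or_eq with h4 | h4
      · rw [Nat.mod_eq_of_lt h4] at h1
        exact hl.one_lt.ne' h1
      · rw [h4, Nat.mod_self] at h1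
        omega
    rcases hlp.dvd_or_dvd h with h4 | h4
    · rcases hlp.dvd_or_dvd h4 with h5 | h5
      · have h6 : l ∣ 2 * 3 := by exact_mod_cast h5
        rcases hl.dvd_mul.1 h6 with h7 | h7
        · have := Nat.le_of_dvd (by norm_num) h7
          omega
        · have := Nat.le_of_dvd (by norm_num) h7
          omega
      · have h6 := (Nat.prime_dvd_prime_iff_eq hl hℓ).1 (Int.natCast_dvd_natCast.1 h5)
        omega
    · exact h2 h4
  -- the algebraic side
  obtain ⟨hsha, hfin, hcard⟩ := alg W hΔ hℓ hℓ2 hfinQ hcardQ hshaQ m M K n hn hm2 hsplit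
  have hfin' : Finite (base W K).toAffine.Point := hfin
  have htors : tors K W = Set.univ := tors_eq hfin'
  have hSha : ShaP K ℓ W = {0} := sha_eq hsha
  -- the places
  have hbelow : ∀ v : HeightOneSpectrum (𝓞 K), ((W.Δ : ℤ) : 𝓞 K) ∈ v.asIdeal →
      (∀ x : ℚ, v.valuation K (algebraMap ℚ K x) = (v.under (𝓞 ℚ)).valuation ℚ x) ∧
      (Ideal.absNorm v.asIdeal).Prime := by
    intro v hv
    have h2 : ((6 * ℓ * W.Δ : ℤ) : 𝓞 K) ∈ v.asIdeal := by
      push_cast
      exact Ideal.mul_mem_left _ _ hv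
    refine ⟨?_, hsplit v h2⟩
    set q := Pool.Agent.H921R2.TatePole.below v with hq
    have h5 : ((q : ℕ) : ℤ) ∣ 6 * ℓ * W.Δ := by
      have h6 : (((6 * ℓ * W.Δ : ℤ).natAbs : ℕ) : 𝓞 K) ∈ v.asIdeal := by
        rcases Int.natAbs_eq (6 * ℓ * W.Δ : ℤ) with h8 | h8
        · rw [h8] at h2
          rw [Int.cast_natCast] at h2
          exact h2
        · rw [h8, Int.cast_neg, neg_mem_iff, Int.cast_natCast] at h2
          exact h2
      rw [Pool.Agent.H82R3.EK.natCast_mem_iff] at h6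
      exact Int.natCast_dvd.2 h6
    have hqm : ¬ (q : ℕ) ∣ m := fun h => (hm2 _ q.2 h).1 h5
    exact G.val_eq v _ rfl q (hunr _ q.2 hqm v ((Pool.Agent.H82R3.EK.natCast_mem_iff v _).2 dvd_rfl))
  have hunit : ∀ v : HeightOneSpectrum (𝓞 K), ((W.Δ : ℤ) : 𝓞 K) ∉ v.asIdeal →
      v.valuation K (W.Δ : K) = 1 := by
    intro v hv
    have e : algebraMap (𝓞 K) K ((W.Δ : ℤ) : 𝓞 K) = (W.Δ : K) := map_intCast _ _
    have h1 : v.valuation K (W.Δ : K) ≤ 1 := Fn.int_le_one v _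
    rcases h1.lt_or_eq with h2 | h2
    · exfalso
      apply hv
      have h3 := v.valuation_lt_one_iff_mem (K := K) ((W.Δ : ℤ) : 𝓞 K)
      have h4 : v.valuation K (algebraMap (𝓞 K) K ((W.Δ : ℤ) : 𝓞 K)) < 1 := by
        rw [e]; exact h2
      exact h3.1 h4
    · exact h2
  have hc1 : ∀ v : HeightOneSpectrum (𝓞 K), ((W.Δ : ℤ) : 𝓞 K) ∉ v.asIdeal → c W v = 1 := by
    intro v hv
    have hint : ∀ n : ℤ, Valued.v ((n : ℤ) : v.adicCompletion K) ≤ 1 := fun n => by
      rw [Fn.valued_int]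
      exact Fn.int_le_one v n
    rw [c_eq, Pool.Agent.Y779.G.s_tamg W (v.adicCompletion K) Valued.v hint (by
      rw [Fn.valued_int]
      exact hunit v hv), AddSubgroup.index_top]
  have hcu : ∀ v : HeightOneSpectrum (𝓞 K), ¬ ℓ ∣ c W v := by
    intro v
    by_cases hv : ((W.Δ : ℤ) : 𝓞 K) ∈ v.asIdeal
    · obtain ⟨h1, h2⟩ := hbelow v hv
      rw [c_eq, Pool.Agent.Y852.GS.s_tams W K v _ h1 h2, ← c_eq]
      exact htamQ _
    · rw [hc1 v hv]
      exact fun h => hℓ.one_lt.ne' (Nat.dvd_one.1 h)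
  have hTam : ¬ ℓ ∣ Tam K W :=
    finprod_induction (fun x => ¬ ℓ ∣ x) (fun h => hℓ.one_lt.ne' (Nat.dvd_one.1 h))
      (fun _ _ h1 h2 h => (hℓ.dvd_mul.1 h).elim h1 h2) hcu
  have hAO : AllUnits ℓ K W := ⟨hSha, hTam, by rw [htors, Nat.card_univ]; exact hcard⟩
  refine ⟨?_, hAO⟩
  -- the value over `ℚ`
  obtain ⟨L₀, hL1, hL2, hL4, hL3⟩ := hr
  have hbv := bv_zero Pool.Agent.Y563.G.s_epq hfI L₀ hL1 hL2
  have hval0 : ((r.den : ℤ) : ℂ) * Pool.Agent.Y18.BSD.bv f 0 = (r.num : ℂ) * (realPeriod W : ℂ) := by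
    rw [hbv, hL3]
    have h2 : ((r.den : ℤ) : ℂ) * (r : ℂ) = (r.num : ℂ) := by
      have h3 : ((r.den : ℤ) : ℚ) * r = (r.num : ℚ) := by
        rw [Int.cast_natCast]
        exact Rat.den_mul_eq_num r
      exact_mod_cast congrArg (fun x : ℚ => (x : ℂ)) h3
    linear_combination (realPeriod W : ℂ) * h2
  have hpos : 0 < realPeriod W := by
    have h0 : 0 ≤ realPeriod W := by
      unfold realPeriod
      have := MeasureTheory.integral_nonneg (μ := volume.restrict {x : ℝ | 0 < cubic W x})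
        (f := fun x : ℝ => 1 / √(cubic W x)) (fun x => by positivity)
      positivity
    refine lt_of_le_of_ne h0 fun h => hL4 ?_
    rw [hL3, ← h, Complex.ofReal_zero, mul_zero]
  obtain ⟨cc, hcc, hman'⟩ := hman
  have hPer : Per f ℓ (realPeriod W) cc r.num (r.den : ℤ) := by
    refine ⟨hpos, hcc, ?_, hnum, fun h => hden (Int.natCast_dvd_natCast.1 h), hval0⟩
    rintro x ⟨γ, rfl⟩
    have h1 := Pool.Agent.Y18.BSD.per_spec f (Additive.toMul γ) UpperHalfPlane.I
    obtain ⟨A, h2⟩ := hman' _ (Additive.toMul γ).2 UpperHalfPlane.I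
    refine ⟨A, ?_⟩
    have h3 : prim f ((((Additive.toMul γ : Gamma0 N) : SL(2, ℤ)) • UpperHalfPlane.I : ℍ) : ℂ) -
        prim f (UpperHalfPlane.I : ℂ) = Pool.Agent.Y18.BSD.per f (Additive.toMul γ) := by
      have h4 : prim f ((((Additive.toMul γ : Gamma0 N) : SL(2, ℤ)) • UpperHalfPlane.I : ℍ) : ℂ) =
          prim f (UpperHalfPlane.I : ℂ) + Pool.Agent.Y18.BSD.per f (Additive.toMul γ) := h1
      rw [h4]
      ring
    rw [h3] at h2
    exact h2
  have hcoN : Nat.Coprime m N := by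
    rw [Nat.coprime_iff_gcd_eq_one]
    by_contra h
    obtain ⟨l, hl, hl2⟩ := Nat.exists_prime_and_dvd h
    have h3 := (hfI.level l hl).1 (hl2.trans (Nat.gcd_dvd_right _ _))
    exact (hm l hl (hl2.trans (Nat.gcd_dvd_left _ _))).2.1 h3
  obtain ⟨H, hHd, hHp, him, hrp, hcp, D, M', hDo, hMo, hval⟩ := l_main Pool.Agent.Y238.G.s_hasp hΔ hℓ
    hℓ2 hfI hPer m hsq hcoN hm1 M K n hn (fun v hv => hsplit v (by
      have e : ((6 * ℓ * W.Δ : ℤ) : 𝓞 K) = ((3 * ℓ : ℤ) : 𝓞 K) * ((2 * W.Δ : ℤ) : 𝓞 K) := by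
        push_cast
        ring
      rw [e]
      exact Ideal.mul_mem_left _ _ hv))
  have hOmega : Omega K W = realPeriod W ^ (ℓ ^ n) := by
    unfold Omega
    rw [hrp, hcp, pow_zero, mul_one]
  have hOmega0 : 0 < Omega K W := by
    rw [hOmega]; positivity
  have ne : ∀ N : ℤ, ¬ (ℓ : ℤ) ∣ N → (N : ℝ) ≠ 0 := by
    intro N hN h
    have : N = 0 := by exact_mod_cast h
    rw [this] at hN
    exact hN (dvd_zero _)
  have hD0 : 0 < |(D : ℝ)| := abs_pos.2 (ne D hDo)
  have hM0 : 0 < |(M' : ℝ)| := abs_pos.2 (ne M' hMo)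
  have hval' : ‖H 1‖ * √|(discr K : ℝ)| = |(M' : ℝ)| / |(D : ℝ)| * Omega K W := by
    rw [← hOmega] at hval
    rw [div_mul_eq_mul_div, eq_div_iff hD0.ne', ← hval]
    ring
  have hH1 : H 1 ≠ 0 := by
    intro h
    rw [h, norm_zero, zero_mul] at hval'
    have : 0 < |(M' : ℝ)| / |(D : ℝ)| * Omega K W := mul_pos (div_pos hM0 hD0) hOmega0
    exact this.ne hval'
  have hre : H 1 = ((H 1).re : ℂ) := Complex.ext rfl (by rw [him]; rfl)
  have hnorm : ‖H 1‖ = |(H 1).re| := by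
    rw [hre, Complex.norm_real, Real.norm_eq_abs, Complex.ofReal_re]
  refine ⟨fun v => ?_, ?_, rank_eq hfin', hfin', by rw [hSha]; exact Set.finite_singleton 0,
    H, hHd, hHp, analyticOrderAt_eq_zero.2 (Or.inr hH1), ?_⟩
  · by_cases hv : ((W.Δ : ℤ) : 𝓞 K) ∈ v.asIdeal
    · obtain ⟨h1, h2⟩ := hbelow v hv
      exact Pool.Agent.Y852.GS.s_mins W K v _ h1 h2 (hmin _)
    · intro C h1 h2 h3 h4 h6
      have e : (base W K).Δ = (W.Δ : K) := by
        rw [WeierstrassCurve.map_Δ]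
        simp
      rw [e, hunit v hv]
      exact Fn.disc_le v _ h1 h2 h3 h4 h6
  · refine (W165.CE.finite_bad (K := K) W.Δ hΔ).subset ?_
    intro v hv
    by_contra hcon
    apply hv
    apply hc1 v
    intro h
    apply hcon
    have h6 : ((W.Δ.natAbs : ℕ) : 𝓞 K) ∈ v.asIdeal := by
      rcases Int.natAbs_eq W.Δ with h8 | h8
      · rw [h8] at h
        rw [Int.cast_natCast] at h
        exact h
      · rw [h8, Int.cast_neg, neg_mem_iff, Int.cast_natCast] at h
        exact h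
    rw [Pool.Agent.H82R3.EK.natCast_mem_iff] at h6
    exact Int.natCast_dvd.2 h6
  · obtain ⟨ε, hε, hεr⟩ : ∃ ε : ℚ, (ε = 1 ∨ ε = -1) ∧ (H 1).re = ε * |(H 1).re| := by
      rcases le_total 0 (H 1).re with h | h
      · exact ⟨1, Or.inl rfl, by rw [abs_of_nonneg h]; push_cast; ring⟩
      · exact ⟨-1, Or.inr rfl, by rw [abs_of_nonpos h]; push_cast; ring⟩
    refine ⟨ε * (|(M' : ℚ)| / |(D : ℚ)|), ?_, ?_, ?_⟩
    · rw [hnorm] at hval'
      rw [hre, hεr]
      have h2 : ((|(H 1).re| : ℝ) : ℂ) * (√|(discr K : ℝ)| : ℝ) =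
          ((|(M' : ℝ)| / |(D : ℝ)| * Omega K W : ℝ) : ℂ) := by
        rw [← Complex.ofReal_mul, hval']
      have h3 : ∀ x : ℤ, (((|(x : ℚ)| : ℚ) : ℂ)) = ((|(x : ℝ)| : ℝ) : ℂ) := by
        intro x
        rw [← Complex.ofReal_ratCast]
        push_cast
        rfl
      push_cast at h2 ⊢
      rw [h3, h3]
      linear_combination (ε : ℂ) * h2
    · have h1 : ε ≠ 0 := by rcases hε with rfl | rfl <;> norm_num
      have h2 : |(M' : ℚ)| ≠ 0 := by
        have := hM0.ne'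
        exact_mod_cast this
      have h3 : |(D : ℚ)| ≠ 0 := by
        have := hD0.ne'
        exact_mod_cast this
      exact mul_ne_zero h1 (div_ne_zero h2 h3)
    · rw [units_val hℓ hAO]
      exact val_zero hℓ D M' hDo hMo ε hε

end core

end proof

/-- **Main theorem.** Let `W` be a Weierstrass equation with integral coefficients, `f` the newform of
`W`, of a level `N` with the same prime divisors as the discriminant `Δ`, and `ℓ` an odd prime; assume
that the equation is minimal and that `c` times the real parts of the periods of `2 π i f(z) dz` on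
`Γ₀(N)` are multiples of the real period `Ω` of `W` for an integer `c` prime to `ℓ` (the Manin constant is
prime to `ℓ`).  Assume that `E(ℚ)` is finite of order prime to `ℓ`, that the Tamagawa numbers over `ℚ` are
prime to `ℓ`, that `Ш(E/ℚ)` has no element of order `ℓ`, and that `L(E, 1) = r Ω` with `r` prime to `ℓ`.
Let `m` be squarefree with `l ≡ 1 (mod ℓ)`, `l ∤ Δ` and `ℓ ∤ #E(𝔽_l)` for all primes `l` that
divide `m`, `M` the `m`-th cyclotomic field, `K` a subfield of degree `ℓ^n` such that the places that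
divide `6 ℓ Δ` have a residue field of prime order, that is, the primes that divide `6 ℓ Δ` split
completely in `K`.  Then the `ℓ`-part of the Birch and Swinnerton-Dyer conjecture holds for `W` over
`K`, and its terms are prime to `ℓ`. -/
theorem result {N : ℕ} [NeZero N] (W : WeierstrassCurve ℤ) (hΔ : W.Δ ≠ 0)
    (hmin : ∀ v : HeightOneSpectrum (𝓞 ℚ), MinimalAt W v)
    (f : CuspForm (Gamma0 N : Subgroup (GL (Fin 2) ℝ)) 2) (hf : IsNewform W N f)
    (ℓ : ℕ) (hℓ : ℓ.Prime) (hℓ2 : ℓ ≠ 2)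
    (hman : ∃ c : ℤ, ¬ (ℓ : ℤ) ∣ c ∧ ∀ γ ∈ Gamma0 N, ∀ z : ℍ, ∃ n : ℤ,
      c * (prim f ((γ • z : ℍ) : ℂ) - prim f (z : ℂ)).re = n * realPeriod W)
    (hfinQ : Finite (base W ℚ).toAffine.Point)
    (hcardQ : ¬ ℓ ∣ Nat.card (base W ℚ).toAffine.Point)
    (htamQ : ∀ v : HeightOneSpectrum (𝓞 ℚ), ¬ ℓ ∣ c W v)
    (hshaQ : ∀ s : Sha (base W ℚ), ℓ • s = 0 → s = 0)
    (r : ℚ) (hr : LValue W r) (hnum : ¬ (ℓ : ℤ) ∣ r.num) (hden : ¬ ℓ ∣ r.den)
    (m : ℕ) [NeZero m] (hsq : Squarefree m)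
    (hm : ∀ l : ℕ, l.Prime → l ∣ m → l % ℓ = 1 ∧ ¬ (l : ℤ) ∣ W.Δ ∧ ¬ ℓ ∣ pts W (ZMod l) + 1)
    (M : Type) [Field M] [NumberField M] [IsCyclotomicExtension {m} ℚ M]
    (K : IntermediateField ℚ M) (n : ℕ) (hn : Module.finrank ℚ K = ℓ ^ n)
    (hsplit : ∀ v : HeightOneSpectrum (𝓞 K), ((6 * ℓ * W.Δ : ℤ) : 𝓞 K) ∈ v.asIdeal →
      (Ideal.absNorm v.asIdeal).Prime) :
    BSDPart ℓ K W ∧ AllUnits ℓ K W :=
  core W hΔ hmin f hf ℓ hℓ hℓ2 hman hfinQ hcardQ htamQ hshaQ r hr hnum hden m hsq hm M K n hn hsplit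

end Pool.Agent.Results.MP_e996df_nt.OddPartLifting
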