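import Pool.Agent.N783.OT.Asm
import Pool.Agent.Y18.LP.Main

/-!
# Ranks and `ℓ`-primary Tate-Shafarevich groups for a uniform positive proportion of the abelian
# `ℓ`-extensions in every group, all odd primes `ℓ`

`E_i : y² = x³ + a_i x + b_i` (`i = 1, …, m`) are elliptic curves over `ℚ`, given with their newforms,
with `L(E_i, 1) ≠ 0`, and `ℓ` is an odd prime such that the `ℓ`-Selmer groups of the `E_i` over `ℚ` are
trivial: `E_i(ℚ)` is finite of order prime to `ℓ` and `Ш(E_i/ℚ)[ℓ] = 0`.  A prime `q` is admissible if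
`q ∤ 2 Δ_i` and the number of the points of `E_i` over `ℤ/q` is not divisible by `ℓ`, for all `i`.  Let
`n` and `r` be given.

Theorem: there is a number `V` such that for every group `H`, finite or infinite and as sparse as one
likes, of Dirichlet characters of order dividing `ℓ ^ n` and of squarefree conductors composed of
admissible primes, the following holds for a proportion at least `2 ^ (-V)` of the `r`-tuples
`(χ_1, …, χ_r)` in `H`: for all number fields `F` contained in the abelian extension of `ℚ` attached to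
the group generated by `χ_1, …, χ_r` and all `i` the Hasse-Weil `L`-function `L(E_i/F, s)` is entire,
its order of vanishing at `s = 1` is the rank of `E_i(F)`, both are `0`, the order of `E_i(F)` is prime
to `ℓ`, and `Ш(E_i/F)[ℓ^∞] = 0`.

The proof.  The characters `χ` in `H` with `χ(p) = 1` for the primes `p` dividing `2 Δ_i ℓ` for some `i`
form a subgroup `H_1` of index at most `ℓ ^ (n s)`, `s` the number of these primes.  The analytic part
(`Y18/LP`) gives a set `K` of at most `2 ^ {V_0}` tuples in `H_1` such that every tuple in `H_1` can be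
multiplied by an element of `K` so that `L(E_i/F, 1) ≠ 0` for the fields `F` of the product.  On the
algebraic side (files `N783/OT` and the files they import) every such `F` is an abelian extension of `ℚ`
of degree a power of `ℓ` which is ramified at admissible primes only and in which the primes dividing
`2 Δ_i ℓ` split completely, and then `Sel_ℓ(E_i/F) = 0`.
-/

set_option autoImplicit false

open Complex UpperHalfPlane MatrixGroups CongruenceSubgroup NumberField IsDedekindDomain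

namespace Pool.Agent.Results.MP_f50388_nt.UniformProportionOdd

/-- `N_p`: the number of pairs `(x, y) ∈ (ℤ/p)²` with `y² = x³ + a x + b`. -/
noncomputable def pointCount (a b : ℤ) (p : ℕ) : ℕ :=
  Nat.card {q : ZMod p × ZMod p // q.2 ^ 2 = q.1 ^ 3 + (a : ZMod p) * q.1 + (b : ZMod p)}

/-- `p` is a prime not dividing `2 Δ`, `Δ = -4 a³ - 27 b²`. -/
def GoodPrime (a b : ℤ) (p : ℕ) : Prop :=
  p.Prime ∧ ¬ ((p : ℤ) ∣ 2 * (-4 * a ^ 3 - 27 * b ^ 2))

open Classical in
/-- `L(E, 1) ≠ 0` for `E : y² = x³ + a x + b`: there is an entire function `F` which for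
`Re s > 3/2` is the incomplete L-series `∏_{p ∤ 2Δ} (1 - a_p p^{-s} + p^{1-2s})⁻¹`, `a_p = p - N_p`,
of `E` over `ℚ`, and `F(1) ≠ 0`. -/
def AnalyticRankZero (a b : ℤ) : Prop :=
  ∃ F : ℂ → ℂ, (Differentiable ℂ F ∧ ∀ s : ℂ, (3 : ℝ) / 2 < s.re →
    HasProd (fun p : ℕ => if GoodPrime a b p then
      (1 - ((p : ℂ) - (pointCount a b p : ℂ)) * (p : ℂ) ^ (-s) + (p : ℂ) ^ (1 - 2 * s))⁻¹ else 1)
      (F s)) ∧ F 1 ≠ 0

/-- `q` is a prime, `q ∤ 2 Δ`, and the number `N_q + 1` of the points of `E : y² = x³ + a x + b` over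
`ℤ/q` (with the point at infinity) is not divisible by `ℓ`. -/
def Admissible (a b : ℤ) (ℓ q : ℕ) : Prop := GoodPrime a b q ∧ ¬ ℓ ∣ pointCount a b q + 1

/-- The families `c = (c_q)` of characters `c_q` of the groups `(ℤ/q)ˣ`.  The family with `c_q = 1`
except for the primes `q` of a finite set stands for the Dirichlet character `χ_c = ∏ c_q` of
squarefree conductor; this is an isomorphism of groups. -/
abbrev Fam : Type := (q : ℕ) → (ZMod q)ˣ →* ℂˣ

open Classical in
/-- The set of the `q` with `c_q ≠ 1` (if it is finite). -/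
noncomputable def supp (c : Fam) : Finset ℕ :=
  if h : {q | c q ≠ 1}.Finite then h.toFinset else ∅

/-- The conductor of `χ_c`. -/
noncomputable def conductor (c : Fam) : ℕ := ∏ q ∈ supp c, q

/-- The value `χ_c(m)`. -/
noncomputable def value (c : Fam) (m : ℕ) : ℂ :=
  ∏ q ∈ supp c, if h : m.Coprime q then (c q (ZMod.unitOfCoprime m h) : ℂ) else 0

open Classical in
/-- The Gaussian period `∑ exp(2 π i u / M)`, `0 ≤ u < M`, `χ_c(u) = 1`, where `M` is the conductor of
`χ_c`.  It generates the cyclic extension of `ℚ` attached to `χ_c` (the subfield of `ℚ(exp(2 π i / M))`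
fixed by the kernel of `χ_c`; recall that `M` is squarefree). -/
noncomputable def period (c : Fam) : ℂ :=
  ∑ u ∈ (Finset.range (conductor c)).filter (fun u => value c u = 1),
    Complex.exp (2 * Real.pi * Complex.I / (conductor c : ℕ)) ^ u

/-- `H` is a group of Dirichlet characters of order dividing `ℓ ^ n` and of squarefree conductors
composed of primes admissible for all the curves. -/
structure IsCharGroup {m : ℕ} (a b : Fin m → ℤ) (ℓ n : ℕ) (H : Subgroup Fam) : Prop where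
  pow : ∀ c ∈ H, c ^ (ℓ ^ n) = 1
  finite : ∀ c ∈ H, {q | c q ≠ 1}.Finite
  admissible : ∀ c ∈ H, ∀ q, c q ≠ 1 → q.Prime ∧ ∀ i, Admissible (a i) (b i) ℓ q

/-- The `n`-th Fourier coefficient of `f`. -/
noncomputable def coef {N : ℕ} (f : CuspForm (Gamma0 N : Subgroup (GL (Fin 2) ℝ)) 2) (n : ℕ) : ℂ :=
  (qExpansion 1 f).coeff n

/-- `f ∈ S_2(Γ₀(N))` is the newform of the elliptic curve `E : y² = x³ + a x + b`, with its standard
properties: the Fourier coefficients `c(n)` of `f` are real with `c(1) = 1`, they satisfy the Hecke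
relations `c(mn) = c(m) c(n)` for coprime `m`, `n` and `c(p^(j+2)) = c(p) c(p^(j+1)) - p c(p^j)`
(without the last term if `p ∣ N`) and the bounds `|c(p)| ≤ 2√p` for `p ∤ N`, `|c(p)| ≤ 1` for
`p ∣ N`; `f` is an eigenfunction of the Fricke involution: `f(-1/(Nτ)) = -w N τ² f(τ)` with `w = ±1`;
for all primes `p ∤ 2Δ` one has `p ∤ N` and `c(p) = a_p(E)`.  (Every elliptic curve over `ℚ` has such a
form by the modularity theorem.) -/
structure IsFormOf (a b : ℤ) (N : ℕ) (f : CuspForm (Gamma0 N : Subgroup (GL (Fin 2) ℝ)) 2) :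
    Prop where
  one : coef f 1 = 1
  real : ∀ n, (coef f n).im = 0
  mul : ∀ m n : ℕ, Nat.Coprime m n → coef f (m * n) = coef f m * coef f n
  pow : ∀ p j : ℕ, p.Prime → coef f (p ^ (j + 2)) = coef f p * coef f (p ^ (j + 1)) -
      (if p ∣ N then 0 else (p : ℂ) * coef f (p ^ j))
  good : ∀ p : ℕ, p.Prime → ¬ p ∣ N → ‖coef f p‖ ≤ 2 * Real.sqrt p
  bad : ∀ p : ℕ, p.Prime → p ∣ N → ‖coef f p‖ ≤ 1
  fricke : ∃ w : ℝ, (w = 1 ∨ w = -1) ∧ ∀ τ τ' : ℍ, (τ' : ℂ) * ((N : ℂ) * (τ : ℂ)) = -1 →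
    f τ' = -(w : ℂ) * (N : ℂ) * (τ : ℂ) ^ 2 * f τ
  points : ∀ p : ℕ, GoodPrime a b p → ¬ p ∣ N ∧ coef f p = (p : ℂ) - (pointCount a b p : ℂ)

/-- `pw t u n = α ^ n + β ^ n`, where `α`, `β` are the roots of `X² - t X + u`. -/
noncomputable def pw (t u : ℂ) : ℕ → ℂ
  | 0 => 2
  | 1 => t
  | n + 2 => t * pw t u (n + 1) - u * pw t u n

section
variable {F : Type} [Field F] [NumberField F]

/-- The number `a_v` of `E : y² = x³ + a x + b` at a finite place `v` of `F`: `Nv` minus the number of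
affine solutions `(x, y)` of the equation over the residue field `𝓞 F / v`. -/
noncomputable def av (a b : ℤ) (v : HeightOneSpectrum (𝓞 F)) : ℤ :=
  ((Ideal.absNorm v.asIdeal : ℕ) : ℤ) -
    ((Nat.card {x : (𝓞 F ⧸ v.asIdeal) × (𝓞 F ⧸ v.asIdeal) //
      x.2 ^ 2 = x.1 ^ 3 + (a : 𝓞 F ⧸ v.asIdeal) * x.1 + (b : 𝓞 F ⧸ v.asIdeal)} : ℕ) : ℤ)

open Classical in
/-- The Euler factor of `L(E/F, s)` at the finite place `v` of `F`.  If `v ∤ 2 Δ`, it is
`(1 - a_v (Nv)^(-s) + (Nv)^(1-2s))⁻¹`.  If `v ∣ 2 Δ` and `Nv = p ^ d` with `p` prime, it is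
`(1 - (α^d + β^d) (Nv)^(-s) + (Nv)^(1-2s))⁻¹` for `p ∤ N`, where `α`, `β` are the roots of
`X² - c(p) X + p`, and `(1 - c(p)^d (Nv)^(-s))⁻¹` for `p ∣ N`.  (The primes `p ∣ 2 Δ` will be
unramified in `F`, so that this is the Hasse-Weil factor.) -/
noncomputable def factor (a b : ℤ) {N : ℕ} (f : CuspForm (Gamma0 N : Subgroup (GL (Fin 2) ℝ)) 2)
    (s : ℂ) (v : HeightOneSpectrum (𝓞 F)) : ℂ :=
  if ((2 * (4 * a ^ 3 + 27 * b ^ 2) : ℤ) : 𝓞 F) ∈ v.asIdeal then
    (1 - pw (coef f (Ideal.absNorm v.asIdeal).minFac)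
          (if (Ideal.absNorm v.asIdeal).minFac ∣ N then 0 else ((Ideal.absNorm v.asIdeal).minFac : ℂ))
          ((Ideal.absNorm v.asIdeal).factorization (Ideal.absNorm v.asIdeal).minFac)
          * ((Ideal.absNorm v.asIdeal : ℕ) : ℂ) ^ (-s)
      + (if (Ideal.absNorm v.asIdeal).minFac ∣ N then (0 : ℂ) else
          ((Ideal.absNorm v.asIdeal : ℕ) : ℂ) ^ (1 - 2 * s)))⁻¹
  else
    (1 - ((av a b v : ℤ) : ℂ) * ((Ideal.absNorm v.asIdeal : ℕ) : ℂ) ^ (-s)
      + ((Ideal.absNorm v.asIdeal : ℕ) : ℂ) ^ (1 - 2 * s))⁻¹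

end

/-- The curve `E : y² = x³ + a x + b` over the field `F`. -/
def curve (F : Type) [Field F] (a b : ℤ) : WeierstrassCurve F :=
  { a₁ := 0, a₂ := 0, a₃ := 0, a₄ := (a : F), a₆ := (b : F) }

/-- The group `E(F)` for `E : y² = x³ + a x + b`. -/
abbrev Points (F : Type) [Field F] (a b : ℤ) : Type := (curve F a b).toAffine.Point

open Classical in
/-- The rank conjecture holds for `E : y² = x³ + a x + b` (with newform `f`) over the number field
`F ⊂ ℂ`, and both sides are `0`: there is an entire function `G` which for `Re s > 3/2` is the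
Euler product of `E` over all finite places of `F`, the order of vanishing of `G` at `s = 1` is the
rank of `E(F)`, and the rank is `0`. -/
def BSDRankZeroOver (F : IntermediateField ℚ ℂ) [NumberField F] (a b : ℤ) {N : ℕ}
    (f : CuspForm (Gamma0 N : Subgroup (GL (Fin 2) ℝ)) 2) : Prop :=
  ∃ G : ℂ → ℂ, Differentiable ℂ G ∧
    (∀ s : ℂ, 3 / 2 < s.re → HasProd (fun v : HeightOneSpectrum (𝓞 F) => factor a b f s v) (G s)) ∧
    analyticOrderAt G 1 = ((Module.finrank ℤ (Points F a b) : ℕ) : ℕ∞) ∧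
    Module.finrank ℤ (Points F a b) = 0

/-- The abelian extension of `ℚ` in `ℂ` attached to the group generated by `χ_1, …, χ_r`. -/
noncomputable def fieldOf {r : ℕ} (c : Fin r → Fam) : IntermediateField ℚ ℂ :=
  IntermediateField.adjoin ℚ {x : ℂ | ∃ J : Fin r → ℕ, x = period (∏ j, c j ^ J j)}

/-- The set of the `r`-tuples of elements of `H`. -/
def Tuples (H : Subgroup Fam) (r : ℕ) : Set (Fin r → Fam) := {c | ∀ j, c j ∈ H}

/-- The property `P` holds for a proportion at least `2 ^ (-V)` of the `r`-tuples in `H`: there is a set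
`K` of at most `2 ^ V` tuples in `H` such that every tuple in `H` can be multiplied by an element of `K`
so that the product has the property `P`; so the proportion of the tuples with `P` is at least
`2 ^ (-V)` if `H` is finite, and if `H` is infinite, the number of the tuples with product of the
conductors at most `X` is at most `2 ^ V` times the number of the tuples with `P` and with product of
the conductors at most `C X`, `C` independent of `X`. -/
def ManyTuples (V : ℕ) (H : Subgroup Fam) (r : ℕ) (P : (Fin r → Fam) → Prop) : Prop :=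
  (∃ K : Finset (Fin r → Fam), K.card ≤ 2 ^ V ∧ (K : Set (Fin r → Fam)) ⊆ Tuples H r ∧
    ∀ c ∈ Tuples H r, ∃ k ∈ K, P (fun j => c j * k j)) ∧
  ((H : Set Fam).Finite → (Tuples H r).ncard ≤ 2 ^ V * {c | c ∈ Tuples H r ∧ P c}.ncard) ∧
  ∃ C : ℕ, ∀ X : ℕ, {c | c ∈ Tuples H r ∧ ∏ j, conductor (c j) ≤ X}.ncard ≤
    2 ^ V * {c | (c ∈ Tuples H r ∧ P c) ∧ ∏ j, conductor (c j) ≤ C * X}.ncard

/-- The `ℓ`-Selmer group of `E : y² = x³ + a x + b` over `ℚ` is trivial: `E(ℚ)` is finite of order prime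
to `ℓ` and `Ш(E/ℚ)` has no element of order `ℓ`. -/
def TrivialSelmer (ℓ : ℕ) (a b : ℤ) : Prop :=
  Finite (Points ℚ a b) ∧ ¬ ℓ ∣ Nat.card (Points ℚ a b) ∧
  ∀ s : Pool.Agent.TH841.NF.D.Sha (curve ℚ a b), ℓ • s = 0 → s = 0

/-- The `ℓ`-primary part of the Tate-Shafarevich group of `E : y² = x³ + a x + b` over `F`. -/
def ShaPrimary (ℓ : ℕ) (F : Type) [Field F] [NumberField F] (a b : ℤ) :
    Set (Pool.Agent.TH841.NF.D.Sha (curve F a b)) := {x | ∃ k : ℕ, ℓ ^ k • x = 0}

theorem pw_eq (t u : ℂ) : ∀ n : ℕ, pw t u n = W165.CE.pw t u n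
  | 0 => rfl
  | 1 => rfl
  | n + 2 => by rw [pw, W165.CE.pw, pw_eq t u (n + 1), pw_eq t u n]

theorem factor_eq {F : Type} [Field F] [NumberField F] (a b : ℤ) {N : ℕ}
    (f : CuspForm (Gamma0 N : Subgroup (GL (Fin 2) ℝ)) 2) (s : ℂ) (v : HeightOneSpectrum (𝓞 F)) :
    factor a b f s v = W165.CE.fac a b N (Pool.Agent.Y18.BSD.co f) s v := by
  unfold factor W165.CE.fac
  rw [pw_eq]
  rfl

theorem bsd_of {F : IntermediateField ℚ ℂ} [NumberField F] {a b : ℤ} {N : ℕ}
    {f : CuspForm (Gamma0 N : Subgroup (GL (Fin 2) ℝ)) 2} (h : Pool.Agent.Y18.NF.RZ F a b f)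
    (hfin : Finite (Points F a b)) : BSDRankZeroOver F a b f := by
  classical
  obtain ⟨G, h1, h2, h3⟩ := h
  have h0 : Module.finrank ℤ (Points F a b) = 0 := by
    apply Module.IsTorsion.finrank_eq_zero
    intro P
    refine ⟨⟨(Nat.card (Points F a b) : ℤ), ?_⟩, ?_⟩
    · rw [mem_nonZeroDivisors_iff_ne_zero]
      exact_mod_cast Nat.card_pos.ne'
    · show (Nat.card (Points F a b) : ℤ) • P = 0
      rw [natCast_zsmul]
      exact card_nsmul_eq_zero'
  refine ⟨G, h1, fun s hs => ?_, ?_, h0⟩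
  · refine (congrArg (fun g => HasProd g (G s)) (funext fun v => ?_)).mp (h2 s hs)
    exact (factor_eq a b f s v).symm
  · rw [h0]
    exact analyticOrderAt_eq_zero.2 (Or.inr h3)

theorem sha_of {ℓ : ℕ} {F : Type} [Field F] [NumberField F] {a b : ℤ}
    (h : ∀ s : Pool.Agent.TH841.NF.D.Sha (curve F a b), ℓ • s = 0 → s = 0) :
    ShaPrimary ℓ F a b = {0} := by
  have key : ∀ (j : ℕ) (x : Pool.Agent.TH841.NF.D.Sha (curve F a b)), ℓ ^ j • x = 0 → x = 0 := by
    intro j
    induction j with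
    | zero => intro x hx; rw [pow_zero, one_nsmul] at hx; exact hx
    | succ j ih =>
      intro x hx
      rw [pow_succ, mul_nsmul] at hx
      exact ih x (h _ hx)
  ext x
  constructor
  · rintro ⟨k, hk⟩
    exact key k x hk
  · rintro rfl
    exact ⟨0, nsmul_zero _⟩

/-- the hypothesis in the form used by the files `N783/OT` -/
theorem ts_of {ℓ : ℕ} (hℓ : ℓ.Prime) {a b : ℤ} (h : TrivialSelmer ℓ a b) :
    Pool.Agent.N783.OT.TS ℓ a b :=
  Pool.Agent.N783.OT.ts_mk hℓ h.1 h.2.1 h.2.2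

/-- **Theorem.** Let `E_i : y² = x³ + a_i x + b_i` be elliptic curves over `ℚ` with newforms `f_i` and
`L(E_i, 1) ≠ 0`, let `ℓ` be an odd prime such that the `ℓ`-Selmer groups of the `E_i` over `ℚ` are
trivial, and let `n`, `r` be given. There is `V` such that for every group `H` of Dirichlet characters of
order dividing `ℓ ^ n` and of squarefree conductors composed of primes `q` of good reduction modulo which
the numbers of points of the `E_i` are prime to `ℓ`, for a proportion at least `2 ^ (-V)` of the tuples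
`(χ_1, …, χ_r)` in `H`, for all `i` and over all number fields `F ⊂ ℂ` contained in the abelian extension
attached to `χ_1, …, χ_r`, the rank conjecture holds with rank `0`, the group `E_i(F)` is finite of order
prime to `ℓ`, and `Ш(E_i/F)[ℓ^∞] = 0`. -/
theorem result :
    ∀ (m : ℕ) (a b : Fin m → ℤ) (N : Fin m → ℕ)
      (f : (i : Fin m) → CuspForm (Gamma0 (N i) : Subgroup (GL (Fin 2) ℝ)) 2),
      (∀ i, 4 * a i ^ 3 + 27 * b i ^ 2 ≠ 0) → (∀ i, N i ≠ 0) →
      (∀ i, IsFormOf (a i) (b i) (N i) (f i)) → (∀ i, AnalyticRankZero (a i) (b i)) →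
      ∀ ℓ : ℕ, ℓ.Prime → ℓ ≠ 2 → (∀ i, TrivialSelmer ℓ (a i) (b i)) →
      ∀ n r : ℕ, ∃ V : ℕ, ∀ H : Subgroup Fam, IsCharGroup a b ℓ n H →
        ManyTuples V H r (fun c => ∀ (F : IntermediateField ℚ ℂ) [NumberField F], F ≤ fieldOf c →
          ∀ i, BSDRankZeroOver F (a i) (b i) (f i) ∧
            (Finite (Points F (a i) (b i)) ∧ ¬ ℓ ∣ Nat.card (Points F (a i) (b i))) ∧
            ShaPrimary ℓ F (a i) (b i) = {0}) := by
  intro m a b N f hne hN hf h0 ℓ hℓ hℓ2 hS n r
  have : ∀ i, NeZero (N i) := fun i => ⟨hN i⟩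
  obtain ⟨V0, hV0⟩ := Pool.Agent.Y18.LP.fields m a b hne N f
    (fun i => ⟨(hf i).one, (hf i).real, (hf i).mul, (hf i).pow, (hf i).good, (hf i).bad,
      (hf i).fricke, (hf i).points⟩) h0 ℓ n r hℓ
  refine ⟨ℓ * n * (Pool.Agent.N783.OT.Zb a b ℓ).card * r + V0, fun H hH => ?_⟩
  have hOk : Pool.Agent.Y18.LP.HOk m a b ℓ n H := ⟨hH.pow, hH.finite, hH.admissible⟩
  obtain ⟨H1, h1, h2, R, hR1, hR2, h3⟩ := Pool.Agent.N783.OT.split_odd hne hℓ n H hOk
  have hOk1 : Pool.Agent.Y18.LP.HOk m a b ℓ n H1 :=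
    ⟨fun c hc => hH.pow c (h1 hc), fun c hc => hH.finite c (h1 hc),
      fun c hc => hH.admissible c (h1 hc)⟩
  obtain ⟨K1, h4, h5, h6⟩ := hV0 H1 hOk1
  have hfinal : ∀ c : Fin r → Fam, (∀ j, c j ∈ H1) → ∃ k ∈ K1,
      (fun c : Fin r → Fam => (∀ j, c j ∈ H1) →
        ∀ (F : IntermediateField ℚ ℂ) [NumberField F], F ≤ fieldOf c →
          ∀ i, BSDRankZeroOver F (a i) (b i) (f i) ∧
            (Finite (Points F (a i) (b i)) ∧ ¬ ℓ ∣ Nat.card (Points F (a i) (b i))) ∧
            ShaPrimary ℓ F (a i) (b i) = {0})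
        (fun j => c j * k j) := by
    intro c hc
    obtain ⟨k, hk, h7⟩ := h6 c hc
    refine ⟨k, hk, fun hck F _ hF i => ?_⟩
    obtain ⟨hsha, htor, hfin⟩ := Pool.Agent.N783.OT.sel_curves hne hℓ hℓ2
      (fun i => ts_of hℓ (hS i)) n H1 hOk1 h2 F (hF.trans (by
        refine IntermediateField.adjoin.mono ℚ _ _ ?_
        rintro x ⟨J, rfl⟩
        exact ⟨∏ j, (c j * k j) ^ J j,
          Pool.Agent.R901.EC.prod_pow_mem (G := Fam) H1 (fun j => c j * k j) hck J, rfl⟩)) i
    exact ⟨bsd_of (h7 F hF i) hfin, ⟨hfin, Pool.Agent.N783.OT.card_of hℓ hfin htor⟩, sha_of hsha⟩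
  obtain ⟨K, h8, h9, h10⟩ := Pool.Agent.R901.EC.corr_tuple (G := Fam) h1 R hR2 h3 K1 h5
    (fun c : Fin r → Fam => (∀ j, c j ∈ H1) →
        ∀ (F : IntermediateField ℚ ℂ) [NumberField F], F ≤ fieldOf c →
          ∀ i, BSDRankZeroOver F (a i) (b i) (f i) ∧
            (Finite (Points F (a i) (b i)) ∧ ¬ ℓ ∣ Nat.card (Points F (a i) (b i))) ∧
            ShaPrimary ℓ F (a i) (b i) = {0}) hfinal
  have hKcard : K.card ≤ 2 ^ (ℓ * n * (Pool.Agent.N783.OT.Zb a b ℓ).card * r + V0) := by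
    refine h8.trans ?_
    rw [pow_add, pow_mul, pow_mul, pow_mul]
    refine Nat.mul_le_mul (Nat.pow_le_pow_left (hR1.trans (Nat.pow_le_pow_left ?_ _)) r) h4
    exact Nat.pow_le_pow_left Nat.lt_two_pow_self.le n
  have h11 : ∀ c : Fin r → Fam, (∀ j, c j ∈ H) → ∃ k ∈ K,
      (fun c : Fin r → Fam => ∀ (F : IntermediateField ℚ ℂ) [NumberField F], F ≤ fieldOf c →
        ∀ i, BSDRankZeroOver F (a i) (b i) (f i) ∧
            (Finite (Points F (a i) (b i)) ∧ ¬ ℓ ∣ Nat.card (Points F (a i) (b i))) ∧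
            ShaPrimary ℓ F (a i) (b i) = {0})
        (fun j => c j * k j) := by
    intro c hc
    obtain ⟨k, hk, h12, h13⟩ := h10 c hc
    exact ⟨k, hk, h13 h12⟩
  refine ⟨⟨K, hKcard, fun k hk => h9 k hk, h11⟩, ?_⟩
  exact Pool.Agent.R901.EC.many_tuples hH.finite (fun c hc q hq => (hH.admissible c hc q hq).1) K
    hKcard h9 h11

end Pool.Agent.Results.MP_f50388_nt.UniformProportionOdd
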